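import Pool.Agent.H81.MP5.Step

set_option autoImplicit false

/-!
The start of the induction in dimension 5: a monotone path through the six vertices of a simplex;
and the final theorem.
-/

namespace Pool.Agent.H81.MP5

open Matrix Filter Topology Pool.Agent.H81.MonoPath

/-- the six forms of a simplex -/
def H0 : ℕ → Form 5
  | 0 => (![0, 0, 0, -1, 0], 0)
  | 1 => (![1, 1, 1, 1, 1], 1)
  | 2 => (![0, 0, 0, 0, -1], 0)
  | 3 => (![0, 0, -1, 0, 0], 0)
  | 4 => (![0, -1, 0, 0, 0], 0)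
  | _ => (![-1, 0, 0, 0, 0], 0)

/-- the functional -/
def c0 : Fin 5 → ℝ := ![-1, 2, 4, 1, 3]

/-- coordinate vectors by label -/
def dirv : ℕ → Fin 5 → ℝ
  | 0 => ![0, 0, 0, 1, 0]
  | 1 => 0
  | 2 => ![0, 0, 0, 0, 1]
  | 3 => ![0, 0, 1, 0, 0]
  | 4 => ![0, 1, 0, 0, 0]
  | _ => ![1, 0, 0, 0, 0]

/-- the record of the vertex at the origin -/
def vor : Vx 5 := ⟨0, {0, 2, 3, 4, 5}, dirv⟩

/-- the record of the vertex at a coordinate vector -/
def vat (a : ℕ) : Vx 5 :=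
  ⟨dirv a, ({0, 1, 2, 3, 4, 5} : Finset ℕ).erase a,
    fun F => if F = 1 then - dirv a else dirv F - dirv a⟩

lemma mem_six {F : ℕ} (hF : F ≤ 5) : F = 0 ∨ F = 1 ∨ F = 2 ∨ F = 3 ∨ F = 4 ∨ F = 5 := by omega

lemma isV_or : IsV H0 5 vor := by
  refine ⟨rfl, ?_, ?_, ?_, ?_⟩
  · intro F hF
    change F ∈ ({0, 2, 3, 4, 5} : Finset ℕ) at hF
    simp only [Finset.mem_insert, Finset.mem_singleton] at hF
    omega
  · intro F hF
    change F ∈ ({0, 2, 3, 4, 5} : Finset ℕ) at hF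
    simp only [Finset.mem_insert, Finset.mem_singleton] at hF
    rcases hF with rfl | rfl | rfl | rfl | rfl <;> simp [ev, H0, vor]
  · intro F hF hFT
    change F ∉ ({0, 2, 3, 4, 5} : Finset ℕ) at hFT
    simp only [Finset.mem_insert, Finset.mem_singleton] at hFT
    have : F = 1 := by omega
    subst this
    simp [ev, H0, vor]
  · intro F hF F' hF'
    change F ∈ ({0, 2, 3, 4, 5} : Finset ℕ) at hF
    change F' ∈ ({0, 2, 3, 4, 5} : Finset ℕ) at hF'
    simp only [Finset.mem_insert, Finset.mem_singleton] at hF hF'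
    rcases hF with rfl | rfl | rfl | rfl | rfl <;>
    rcases hF' with rfl | rfl | rfl | rfl | rfl <;>
    simp [D, H0, vor, dirv, dotProduct, Fin.sum_univ_five]

lemma isV_at (a : ℕ) (ha : a = 0 ∨ a = 2 ∨ a = 3 ∨ a = 4 ∨ a = 5) : IsV H0 5 (vat a) := by
  refine ⟨?_, ?_, ?_, ?_, ?_⟩
  · rcases ha with rfl | rfl | rfl | rfl | rfl <;> rfl
  · intro F hF
    change F ∈ ({0, 1, 2, 3, 4, 5} : Finset ℕ).erase a at hF
    have := Finset.mem_of_mem_erase hF
    simp only [Finset.mem_insert, Finset.mem_singleton] at this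
    omega
  · intro F hF
    change F ∈ ({0, 1, 2, 3, 4, 5} : Finset ℕ).erase a at hF
    have h1 := Finset.mem_of_mem_erase hF
    have h2 := Finset.ne_of_mem_erase hF
    simp only [Finset.mem_insert, Finset.mem_singleton] at h1
    rcases h1 with rfl | rfl | rfl | rfl | rfl | rfl <;>
    rcases ha with rfl | rfl | rfl | rfl | rfl <;>
    first
    | exact absurd rfl h2
    | simp [ev, H0, vat, dirv, dotProduct, Fin.sum_univ_five]
  · intro F hF hFT
    change F ∉ ({0, 1, 2, 3, 4, 5} : Finset ℕ).erase a at hFT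
    have : F = a := by
      by_contra h0
      apply hFT
      refine Finset.mem_erase.2 ⟨h0, ?_⟩
      simp only [Finset.mem_insert, Finset.mem_singleton]
      exact mem_six hF
    subst this
    rcases ha with rfl | rfl | rfl | rfl | rfl <;>
    simp [ev, H0, vat, dirv, dotProduct, Fin.sum_univ_five]
  · intro F hF F' hF'
    change F ∈ ({0, 1, 2, 3, 4, 5} : Finset ℕ).erase a at hF
    change F' ∈ ({0, 1, 2, 3, 4, 5} : Finset ℕ).erase a at hF'
    have h1 := Finset.mem_of_mem_erase hF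
    have h2 := Finset.ne_of_mem_erase hF
    have h1' := Finset.mem_of_mem_erase hF'
    have h2' := Finset.ne_of_mem_erase hF'
    simp only [Finset.mem_insert, Finset.mem_singleton] at h1 h1'
    rcases h1 with rfl | rfl | rfl | rfl | rfl | rfl <;>
    rcases h1' with rfl | rfl | rfl | rfl | rfl | rfl <;>
    rcases ha with rfl | rfl | rfl | rfl | rfl <;>
    first
    | exact absurd rfl h2
    | exact absurd rfl h2'
    | simp [D, H0, vat, dirv, dotProduct, Fin.sum_univ_five]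

/-- the path on the simplex -/
def L0 : List (Vx 5 × Mk) :=
  [(vat 5, .off), (vor, .g0), (vat 0, .g1), (vat 4, .off), (vat 2, .I1), (vat 3, .off)]

lemma c0_dot (x : Fin 5 → ℝ) :
    c0 ⬝ᵥ x = - x 0 + 2 * x 1 + 4 * x 2 + x 3 + 3 * x 4 := by
  simp [c0, dotProduct, Fin.sum_univ_five]

lemma c0_sub (a b : ℕ) : c0 ⬝ᵥ (dirv a - dirv b) = c0 ⬝ᵥ dirv a - c0 ⬝ᵥ dirv b :=
  dotProduct_sub _ _ _

lemma c0_0 : c0 ⬝ᵥ dirv 0 = 1 := by rw [c0_dot]; simp [dirv]
lemma c0_2 : c0 ⬝ᵥ dirv 2 = 3 := by rw [c0_dot]; simp [dirv]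
lemma c0_3 : c0 ⬝ᵥ dirv 3 = 4 := by rw [c0_dot]; simp [dirv]
lemma c0_4 : c0 ⬝ᵥ dirv 4 = 2 := by rw [c0_dot]; simp [dirv]
lemma c0_5 : c0 ⬝ᵥ dirv 5 = -1 := by rw [c0_dot]; simp [dirv]

lemma vat_u (a F : ℕ) (hF : F ≠ 1) : c0 ⬝ᵥ (vat a).u F = c0 ⬝ᵥ dirv F - c0 ⬝ᵥ dirv a := by
  change c0 ⬝ᵥ (if F = 1 then - dirv a else dirv F - dirv a) = _
  rw [if_neg hF, c0_sub]

lemma vat_x (a : ℕ) : (vat a).x = dirv a := rfl

lemma vor_x : c0 ⬝ᵥ vor.x = 0 := by simp [vor]

lemma inv0 : Inv H0 c0 0 L0 := by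
  refine ⟨?_, ?_, ?_, rfl, rfl, rfl⟩
  · intro p hp
    simp only [L0, List.mem_cons, List.not_mem_nil, or_false] at hp
    rcases hp with rfl | rfl | rfl | rfl | rfl | rfl
    · refine ⟨isV_at 5 (by omega), ?_⟩
      right; right
      decide
    · refine ⟨isV_or, rfl, ?_, ?_⟩
      · change 0 < c0 ⬝ᵥ dirv 0
        rw [c0_0]; norm_num
      · change 0 < c0 ⬝ᵥ dirv 2
        rw [c0_2]; norm_num
    · refine ⟨isV_at 0 (by omega), rfl, ?_, ?_⟩
      · change 0 < c0 ⬝ᵥ (vat 0).u 4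
        rw [vat_u _ _ (by omega), c0_4, c0_0]; norm_num
      · change 0 < c0 ⬝ᵥ (vat 0).u 3
        rw [vat_u _ _ (by omega), c0_3, c0_0]; norm_num
    · refine ⟨isV_at 4 (by omega), ?_⟩
      right; left
      decide
    · refine ⟨isV_at 2 (by omega), ⟨by decide, by decide, by decide, by decide⟩, ?_, ?_⟩
      · change c0 ⬝ᵥ (vat 2).u 4 < 0
        rw [vat_u _ _ (by omega), c0_4, c0_2]; norm_num
      · change 0 < c0 ⬝ᵥ (vat 2).u 3
        rw [vat_u _ _ (by omega), c0_3, c0_2]; norm_num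
    · refine ⟨isV_at 3 (by omega), ?_⟩
      left
      decide
  · simp only [L0, List.isChain_cons_cons, List.isChain_singleton, and_true]
    refine ⟨⟨?_, ?_, 1, 5, ?_, ?_, trivial, trivial⟩, ⟨?_, rfl, 0, 1, ?_, ?_, rfl, rfl⟩,
      ⟨?_, rfl, 4, 0, ?_, ?_, rfl, trivial⟩, ⟨?_, ?_, 2, 4, ?_, ?_, trivial, rfl⟩,
      ⟨?_, rfl, 3, 2, ?_, ?_, rfl, trivial⟩⟩
    · rw [vor_x, vat_x, c0_5]; norm_num
    · simp [Compat]
    · decide
    · decide
    · rw [vor_x, vat_x, c0_0]; norm_num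
    · decide
    · decide
    · rw [vat_x, vat_x, c0_4, c0_0]; norm_num
    · decide
    · decide
    · rw [vat_x, vat_x, c0_4, c0_2]; norm_num
    · simp [Compat]
    · decide
    · decide
    · rw [vat_x, vat_x, c0_3, c0_2]; norm_num
    · decide
    · decide
  · intro F hF
    rcases mem_six hF with rfl | rfl | rfl | rfl | rfl | rfl
    · exact ⟨(vor, .g0), by simp [L0], by decide⟩
    · exact ⟨(vat 5, .off), by simp [L0], by decide⟩
    · exact ⟨(vor, .g0), by simp [L0], by decide⟩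
    · exact ⟨(vor, .g0), by simp [L0], by decide⟩
    · exact ⟨(vor, .g0), by simp [L0], by decide⟩
    · exact ⟨(vor, .g0), by simp [L0], by decide⟩

lemma inv_all (j : ℕ) : ∃ (H : ℕ → Form 5) (L : List (Vx 5 × Mk)), Inv H c0 j L := by
  induction j with
  | zero => exact ⟨H0, L0, inv0⟩
  | succ j ih =>
    obtain ⟨H, L, hI⟩ := ih
    obtain ⟨h, hI'⟩ := hI.next
    exact ⟨_, _, hI'⟩

/-- `M(5, j + 6) ≥ (j + 3) (j + 2)` -/
theorem hasMonotonePath_five (j : ℕ) : HasMonotonePath 5 (j + 6) ((j + 3) * (j + 2)) := by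
  obtain ⟨H, L, hI⟩ := inv_all j
  have h1 := hasMonotonePath_of_list H (j + 5) c0 (L.map Prod.fst) ?_ ?_ ?_
  · rw [List.length_map, hI.len] at h1
    exact h1
  · intro p hp
    obtain ⟨q, hq, rfl⟩ := List.mem_map.1 hp
    exact (hI.vert q hq).1
  · rw [List.isChain_map]
    refine hI.chain.imp (fun p q h => ?_)
    obtain ⟨h1, -, F, F', h2, h3, -, -⟩ := h
    exact ⟨h1, F, F', h2, h3⟩
  · intro F hF
    obtain ⟨p, hp, hpF⟩ := hI.cover F hF
    exact ⟨p.1, List.mem_map.2 ⟨p, hp, rfl⟩, hpF⟩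

end Pool.Agent.H81.MP5
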