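import Pool.Agent.H81.MonoPath

set_option autoImplicit false

/-!
Monotone paths on simple polyhedra through pivots: vertex records and their pivots, and the
passage from a list of vertex records to a monotone path.
-/

namespace Pool.Agent.H81.MP5

open Matrix Pool.Agent.H81.MonoPath

variable {d : ℕ}

/-- an affine form `x ↦ f.2 - f.1 · x` -/
abbrev Form (d : ℕ) := (Fin d → ℝ) × ℝ

/-- value of a form -/
def ev (f : Form d) (x : Fin d → ℝ) : ℝ := f.2 - f.1 ⬝ᵥ x

/-- derivative of a form -/
def D (f : Form d) (u : Fin d → ℝ) : ℝ := - (f.1 ⬝ᵥ u)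

lemma ev_add_smul (f : Form d) (x u : Fin d → ℝ) (t : ℝ) :
    ev f (x + t • u) = ev f x + t * D f u := by
  simp only [ev, D, dotProduct_add, dotProduct_smul, smul_eq_mul]
  ring

lemma D_smul (f : Form d) (u : Fin d → ℝ) (t : ℝ) : D f (t • u) = t * D f u := by
  simp only [D, dotProduct_smul, smul_eq_mul]
  ring

lemma D_sub (f : Form d) (u v : Fin d → ℝ) : D f (u - v) = D f u - D f v := by
  simp only [D, dotProduct_sub]
  ring

lemma ev_fadd (f g : Form d) (x : Fin d → ℝ) : ev (f + g) x = ev f x + ev g x := by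
  simp only [ev, Prod.fst_add, Prod.snd_add, add_dotProduct]
  ring

lemma ev_fsub (f g : Form d) (x : Fin d → ℝ) : ev (f - g) x = ev f x - ev g x := by
  simp only [ev, Prod.fst_sub, Prod.snd_sub, sub_dotProduct]
  ring

lemma ev_fsmul (t : ℝ) (f : Form d) (x : Fin d → ℝ) : ev (t • f) x = t * ev f x := by
  simp only [ev, Prod.smul_fst, Prod.smul_snd, smul_dotProduct, smul_eq_mul]
  ring

lemma D_fadd (f g : Form d) (x : Fin d → ℝ) : D (f + g) x = D f x + D g x := by
  simp only [D, Prod.fst_add, add_dotProduct]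
  ring

lemma D_fsub (f g : Form d) (x : Fin d → ℝ) : D (f - g) x = D f x - D g x := by
  simp only [D, Prod.fst_sub, sub_dotProduct]
  ring

lemma D_fsmul (t : ℝ) (f : Form d) (x : Fin d → ℝ) : D (t • f) x = t * D f x := by
  simp only [D, Prod.smul_fst, smul_dotProduct, smul_eq_mul]
  ring

/-- the constant form `1` -/
def one : Form d := (0, 1)

lemma ev_one (x : Fin d → ℝ) : ev one x = 1 := by simp [ev, one]

lemma D_one (x : Fin d → ℝ) : D (one : Form d) x = 0 := by simp [D, one]

/-- a vertex record: a point, the labels of its tight forms, and for each tight label `F` the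
direction along which only `F` grows -/
structure Vx (d : ℕ) where
  x : Fin d → ℝ
  T : Finset ℕ
  u : ℕ → Fin d → ℝ

/-- the record is a simple vertex of the system `H 0, …, H k ≥ 0` -/
structure IsV (H : ℕ → Form d) (k : ℕ) (v : Vx d) : Prop where
  card : v.T.card = d
  le : ∀ F ∈ v.T, F ≤ k
  tight : ∀ F ∈ v.T, ev (H F) v.x = 0
  pos : ∀ F, F ≤ k → F ∉ v.T → 0 < ev (H F) v.x
  dual : ∀ F ∈ v.T, ∀ F' ∈ v.T, D (H F) (v.u F') = if F = F' then 1 else 0

/-- the vertex at which the ray leaving facet `l` meets the new facet `h` -/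
noncomputable def piv (h : Form d) (new : ℕ) (v : Vx d) (l : ℕ) : Vx d where
  x := v.x + (-(ev h v.x) / D h (v.u l)) • v.u l
  T := insert new (v.T.erase l)
  u := fun F => if F = new then (D h (v.u l))⁻¹ • v.u l
    else v.u F - (D h (v.u F) / D h (v.u l)) • v.u l

variable {H : ℕ → Form d} {k : ℕ} {v : Vx d}

lemma IsV.notMem (hv : IsV H k v) : k + 1 ∉ v.T := fun h => by
  have := hv.le _ h
  omega

/-- the old forms with a new one -/
def upd (H : ℕ → Form d) (k : ℕ) (h : Form d) : ℕ → Form d := Function.update H (k + 1) h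

lemma upd_new (H : ℕ → Form d) (k : ℕ) (h : Form d) : upd H k h (k + 1) = h := by
  simp [upd]

lemma upd_old (H : ℕ → Form d) (k : ℕ) (h : Form d) (F : ℕ) (hF : F ≤ k) : upd H k h F = H F := by
  have : F ≠ k + 1 := by omega
  simp [upd, this]

lemma IsV.keep (hv : IsV H k v) (h : Form d) (hpos : 0 < ev h v.x) :
    IsV (upd H k h) (k + 1) v := by
  refine ⟨hv.card, fun F hF => (hv.le F hF).trans (Nat.le_succ k), ?_, ?_, ?_⟩
  · intro F hF
    rw [upd_old H k h F (hv.le F hF)]
    exact hv.tight F hF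
  · intro F hF hFT
    rcases Nat.lt_or_ge k F with h1 | h1
    · have : F = k + 1 := by omega
      subst this
      rwa [upd_new]
    · rw [upd_old H k h F h1]
      exact hv.pos F h1 hFT
  · intro F hF F' hF'
    rw [upd_old H k h F (hv.le F hF)]
    exact hv.dual F hF F' hF'

lemma IsV.piv (hv : IsV H k v) (h : Form d) (l : ℕ) (hl : l ∈ v.T)
    (hτ : 0 < -(ev h v.x) / D h (v.u l))
    (hpos : ∀ F, F ≤ k → F ∉ v.T → 0 < ev (H F) (v.x + (-(ev h v.x) / D h (v.u l)) • v.u l)) :
    IsV (upd H k h) (k + 1) (piv h (k + 1) v l) := by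
  have hc : D h (v.u l) ≠ 0 := by
    intro h0
    rw [h0, div_zero] at hτ
    exact lt_irrefl _ hτ
  have hnew := hv.notMem
  have hTne : ∀ F ∈ v.T, F ≠ k + 1 := fun F hF h0 => hnew (h0 ▸ hF)
  refine ⟨?_, ?_, ?_, ?_, ?_⟩
  · change (insert (k + 1) (v.T.erase l)).card = d
    rw [Finset.card_insert_of_notMem (fun h0 => hnew (Finset.mem_of_mem_erase h0)),
      Finset.card_erase_of_mem hl]
    have := hv.card
    have h2 : 0 < v.T.card := Finset.card_pos.2 ⟨l, hl⟩
    omega
  · intro F hF
    rcases Finset.mem_insert.1 hF with h1 | h1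
    · omega
    · exact (hv.le F (Finset.mem_of_mem_erase h1)).trans (Nat.le_succ k)
  · intro F hF
    change ev (upd H k h F) (v.x + (-(ev h v.x) / D h (v.u l)) • v.u l) = 0
    rw [ev_add_smul]
    rcases Finset.mem_insert.1 hF with h1 | h1
    · subst h1
      rw [upd_new]
      field_simp
      ring
    · have hFT := Finset.mem_of_mem_erase h1
      rw [upd_old H k h F (hv.le F hFT), hv.tight F hFT, hv.dual F hFT l hl,
        if_neg (Finset.ne_of_mem_erase h1)]
      ring
  · intro F hF hFT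
    change 0 < ev (upd H k h F) (v.x + (-(ev h v.x) / D h (v.u l)) • v.u l)
    have h1 : F ≠ k + 1 := fun h0 => hFT (Finset.mem_insert.2 (Or.inl h0))
    have h2 : F ≤ k := by omega
    rw [upd_old H k h F h2]
    by_cases h3 : F ∈ v.T
    · have h4 : F = l := by
        by_contra h5
        exact hFT (Finset.mem_insert.2 (Or.inr (Finset.mem_erase.2 ⟨h5, h3⟩)))
      subst h4
      rw [ev_add_smul, hv.tight F h3, hv.dual F h3 F h3, if_pos rfl]
      linarith
    · exact hpos F h2 h3
  · intro F hF F' hF'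
    change D (upd H k h F) (if F' = k + 1 then (D h (v.u l))⁻¹ • v.u l
      else v.u F' - (D h (v.u F') / D h (v.u l)) • v.u l) = _
    rcases Finset.mem_insert.1 hF with h1 | h1
    · subst h1
      rw [upd_new]
      split_ifs with h2 h3 h3
      · rw [D_smul, inv_mul_cancel₀ hc]
      · exact absurd h2.symm h3
      · exact absurd h3.symm h2
      · rw [D_sub, D_smul, div_mul_cancel₀ _ hc, sub_self]
    · have hFT := Finset.mem_of_mem_erase h1
      have hFl := Finset.ne_of_mem_erase h1
      rw [upd_old H k h F (hv.le F hFT)]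
      split_ifs with h2 h3 h3
      · exact absurd (h3.trans h2) (hTne F hFT)
      · rw [D_smul, hv.dual F hFT l hl, if_neg hFl, mul_zero]
      · have hF'T : F' ∈ v.T := h3 ▸ hFT
        rw [D_sub, D_smul, hv.dual F hFT F' hF'T, hv.dual F hFT l hl, if_neg hFl, if_pos h3]
        ring
      · have hF'T : F' ∈ v.T := by
          rcases Finset.mem_insert.1 hF' with h4 | h4
          · exact absurd h4 h2
          · exact Finset.mem_of_mem_erase h4
        rw [D_sub, D_smul, hv.dual F hFT F' hF'T, hv.dual F hFT l hl, if_neg hFl, if_neg h3]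
        ring

/-- the value of the functional `c` at a pivot -/
lemma dot_piv (c : Fin d → ℝ) (h : Form d) (new : ℕ) (v : Vx d) (l : ℕ) :
    c ⬝ᵥ (piv h new v l).x = c ⬝ᵥ v.x + (-(ev h v.x)) * ((c ⬝ᵥ v.u l) / D h (v.u l)) := by
  change c ⬝ᵥ (v.x + (-(ev h v.x) / D h (v.u l)) • v.u l) = _
  rw [dotProduct_add, dotProduct_smul, smul_eq_mul]
  ring

/-- the slopes at a pivot -/
lemma dot_piv_u (c : Fin d → ℝ) (h : Form d) (new : ℕ) (v : Vx d) (l F : ℕ) (hF : F ≠ new) :
    c ⬝ᵥ (piv h new v l).u F =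
      c ⬝ᵥ v.u F - D h (v.u F) * ((c ⬝ᵥ v.u l) / D h (v.u l)) := by
  change c ⬝ᵥ (if F = new then (D h (v.u l))⁻¹ • v.u l
    else v.u F - (D h (v.u F) / D h (v.u l)) • v.u l) = _
  rw [if_neg hF, dotProduct_sub, dotProduct_smul, smul_eq_mul]
  ring

lemma piv_T (h : Form d) (new : ℕ) (v : Vx d) (l : ℕ) :
    (piv h new v l).T = insert new (v.T.erase l) := rfl

/-- From a list of vertex records to a monotone path. -/
theorem hasMonotonePath_of_list (H : ℕ → Form d) (k : ℕ) (c : Fin d → ℝ) (L : List (Vx d))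
    (hV : ∀ p ∈ L, IsV H k p)
    (hchain : L.IsChain (fun p q => c ⬝ᵥ p.x < c ⬝ᵥ q.x ∧ ∃ F F', p.T \ q.T = {F} ∧
      q.T \ p.T = {F'}))
    (hcover : ∀ F, F ≤ k → ∃ p ∈ L, F ∈ p.T) :
    HasMonotonePath d (k + 1) L.length := by
  classical
  -- the tight list of a record
  have hVi : ∀ i : Fin L.length, IsV H k (L.get i) := fun i => hV _ (List.get_mem L i)
  let T : Fin L.length → Fin d → Fin (k + 1) := fun i q =>
    ⟨(L.get i).T.orderEmbOfFin (hVi i).card q,
      Nat.lt_succ_of_le ((hVi i).le _ (Finset.orderEmbOfFin_mem _ _ _))⟩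
  have hTmem : ∀ i q, ((T i q : Fin (k + 1)) : ℕ) ∈ (L.get i).T := fun i q =>
    Finset.orderEmbOfFin_mem _ _ _
  have hTex : ∀ (i : Fin L.length) (F : ℕ), F ∈ (L.get i).T → ∃ q, ((T i q : Fin (k + 1)) : ℕ) = F := by
    intro i F hF
    have h1 : F ∈ Set.range ((L.get i).T.orderEmbOfFin (hVi i).card) := by
      rw [Finset.range_orderEmbOfFin]
      exact hF
    obtain ⟨q, hq⟩ := h1
    exact ⟨q, hq⟩
  have hTinj : ∀ i, Function.Injective (T i) := by
    intro i q q' hqq
    have h1 : ((T i q : Fin (k + 1)) : ℕ) = (T i q' : Fin (k + 1)) := by rw [hqq]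
    exact ((L.get i).T.orderEmbOfFin (hVi i).card).injective h1
  let a : Fin (k + 1) → Fin d → ℝ := fun F => (H F).1
  let b : Fin (k + 1) → ℝ := fun F => (H F).2
  let R : Fin L.length → Matrix (Fin d) (Fin d) ℝ := fun i =>
    Matrix.of fun q l => - ((L.get i).u (T i l) q)
  have hvt : ∀ i : Fin L.length, Vtx a b (T i) (L.get i).x (R i) := by
    intro i
    refine ⟨?_, ?_, ?_⟩
    · rw [mul_eq_one_comm]
      ext p l
      rw [Matrix.mul_apply, Matrix.one_apply]
      have h1 := (hVi i).dual _ (hTmem i p) _ (hTmem i l)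
      have h2 : ∑ q, (Matrix.of fun l => a (T i l)) p q * R i q l
          = D (H (T i p)) ((L.get i).u (T i l)) := by
        simp only [D, dotProduct, Matrix.of_apply, R, a]
        rw [← Finset.sum_neg_distrib]
        apply Finset.sum_congr rfl
        intro q _
        ring
      rw [h2, h1]
      have h3 : ((T i p : Fin (k + 1)) : ℕ) = (T i l : Fin (k + 1)) ↔ p = l := by
        constructor
        · intro h4
          exact hTinj i (Fin.ext h4)
        · rintro rfl; rfl
      simp only [h3]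
    · intro q
      have h1 := (hVi i).tight _ (hTmem i q)
      simp only [ev] at h1
      change (H (T i q)).1 ⬝ᵥ (L.get i).x = (H (T i q)).2
      linarith
    · intro j hj
      have h1 : (j : ℕ) ∉ (L.get i).T := by
        intro h2
        obtain ⟨q, hq⟩ := hTex i j h2
        exact hj q (Fin.ext hq)
      have h2 := (hVi i).pos j (Nat.lt_succ_iff.1 j.2) h1
      simp only [ev] at h2
      change (H j).1 ⬝ᵥ (L.get i).x < (H j).2
      linarith
  have hchain' := List.isChain_iff_getElem.1 hchain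
  refine hasMonotonePath_of_cert a b c T (fun i => (L.get i).x) R hvt ?_ (Nat.succ_pos k) ?_ ?_
  · intro j
    obtain ⟨p, hp, hj⟩ := hcover j (Nat.lt_succ_iff.1 j.2)
    obtain ⟨i, hi⟩ := List.get_of_mem hp
    obtain ⟨q, hq⟩ := hTex i j (by rw [hi]; exact hj)
    exact ⟨i, q, Fin.ext hq⟩
  · intro i j hij
    have h1 := hchain' i (by rw [← hij]; exact j.2)
    have hj : (L[(i : ℕ) + 1]'(by rw [← hij]; exact j.2)) = L.get j := by
      simp only [List.get_eq_getElem, hij]
    have hi : (L[(i : ℕ)]'i.2) = L.get i := rfl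
    rw [hj, hi] at h1
    obtain ⟨-, F, F', hF, hF'⟩ := h1
    have hFm : F ∈ (L.get i).T \ (L.get j).T := by rw [hF]; exact Finset.mem_singleton_self F
    have hFm' : F' ∈ (L.get j).T \ (L.get i).T := by rw [hF']; exact Finset.mem_singleton_self F'
    rw [Finset.mem_sdiff] at hFm hFm'
    obtain ⟨q, hq⟩ := hTex i F hFm.1
    obtain ⟨q', hq'⟩ := hTex j F' hFm'.1
    refine ⟨q, q', ?_, ?_, ?_⟩
    · intro l hl
      apply hFm.2
      rw [← hq, ← hl]
      exact hTmem j l
    · intro l hl
      apply hFm'.2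
      rw [← hq', ← hl]
      exact hTmem i l
    · intro l hl
      have h2 : ((T i l : Fin (k + 1)) : ℕ) ∈ (L.get j).T := by
        by_contra h3
        have h4 : ((T i l : Fin (k + 1)) : ℕ) ∈ (L.get i).T \ (L.get j).T :=
          Finset.mem_sdiff.2 ⟨hTmem i l, h3⟩
        rw [hF, Finset.mem_singleton, ← hq] at h4
        exact hl (hTinj i (Fin.ext h4))
      obtain ⟨l', hl'⟩ := hTex j _ h2
      exact ⟨l', Fin.ext hl'⟩
  · intro i j hij
    have h1 := hchain' i (by rw [← hij]; exact j.2)
    have hj : (L[(i : ℕ) + 1]'(by rw [← hij]; exact j.2)) = L.get j := by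
      simp only [List.get_eq_getElem, hij]
    have hi : (L[(i : ℕ)]'i.2) = L.get i := rfl
    rw [hj, hi] at h1
    exact h1.1

end Pool.Agent.H81.MP5
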