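import Pool.Agent.H81.MP5.Core

set_option autoImplicit false

/-!
The inductive step in dimension 5: marks, the replacement of a vertex record by the records near
it on the cut polyhedron, and the combinatorial part of the step.
-/

namespace Pool.Agent.H81.MP5

open Matrix Filter Topology Pool.Agent.H81.MonoPath

/-- marks of the vertices of the path -/
inductive Mk
  | off | g0 | g1 | I1 | I2 | I3 | I4
deriving DecidableEq

/-- labels of an active vertex -/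
def Act (j : ℕ) (T : Finset ℕ) : Prop := j + 3 ∈ T ∧ j + 4 ∈ T ∧ j + 5 ∈ T ∧ j + 2 ∉ T

/-- what a mark says about a vertex -/
def MkOK (c : Fin 5 → ℝ) (j : ℕ) (v : Vx 5) : Mk → Prop
  | .off => j + 3 ∉ v.T ∨ j + 4 ∉ v.T ∨ j + 5 ∉ v.T
  | .g0 => v.T = {0, j + 2, j + 3, j + 4, j + 5} ∧ 0 < c ⬝ᵥ v.u 0 ∧ 0 < c ⬝ᵥ v.u (j + 2)
  | .g1 => v.T = {j + 1, j + 2, j + 3, j + 4, j + 5} ∧ 0 < c ⬝ᵥ v.u (j + 4) ∧
      0 < c ⬝ᵥ v.u (j + 3)
  | .I1 => Act j v.T ∧ c ⬝ᵥ v.u (j + 4) < 0 ∧ 0 < c ⬝ᵥ v.u (j + 3)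
  | .I2 => Act j v.T ∧ c ⬝ᵥ v.u (j + 4) < 0 ∧ c ⬝ᵥ v.u (j + 3) < 0
  | .I3 => Act j v.T ∧ 0 < c ⬝ᵥ v.u (j + 4) ∧ c ⬝ᵥ v.u (j + 3) < 0
  | .I4 => Act j v.T ∧ 0 < c ⬝ᵥ v.u (j + 4) ∧ 0 < c ⬝ᵥ v.u (j + 3)

/-- the label left towards the successor -/
def SuccOK (j : ℕ) : Mk → ℕ → Prop
  | .off, _ => True
  | .g0, F => F = 0
  | .g1, F => F = j + 4
  | .I1, F => F = j + 3
  | .I2, F => F = j + 5
  | .I3, F => F = j + 4
  | .I4, F => F = j + 4

/-- the label left towards the predecessor -/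
def PredOK (j : ℕ) : Mk → ℕ → Prop
  | .off, _ => True
  | .g0, _ => True
  | .g1, F => F = j + 1
  | .I1, F => F = j + 4
  | .I2, F => F = j + 4
  | .I3, F => F = j + 3
  | .I4, F => F = j + 5

/-- which marks may follow each other -/
def Compat : Mk → Mk → Prop
  | .off, m => m ≠ .g1
  | .g0, m => m = .g1
  | .g1, m => m = .off
  | .I1, m => m = .off
  | .I2, m => m = .off
  | .I3, m => m = .off
  | .I4, m => m = .off

/-- consecutive vertices of the path -/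
def Rel (c : Fin 5 → ℝ) (j : ℕ) (p q : Vx 5 × Mk) : Prop :=
  c ⬝ᵥ p.1.x < c ⬝ᵥ q.1.x ∧ Compat p.2 q.2 ∧
    ∃ F F', p.1.T \ q.1.T = {F} ∧ q.1.T \ p.1.T = {F'} ∧ SuccOK j p.2 F ∧ PredOK j q.2 F'

/-- the records replacing a record of the path -/
noncomputable def ex (h : Form 5) (j : ℕ) : Vx 5 × Mk → List (Vx 5 × Mk)
  | (v, .off) => [(v, .off)]
  | (v, .g0) => [(v, .off), (piv h (j + 6) v (j + 2), .g0), (piv h (j + 6) v 0, .g1)]
  | (v, .g1) => [(piv h (j + 6) v (j + 5), .off), (piv h (j + 6) v (j + 3), .I1),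
      (piv h (j + 6) v (j + 4), .off)]
  | (v, .I1) => [(piv h (j + 6) v (j + 4), .off), (piv h (j + 6) v (j + 5), .off),
      (piv h (j + 6) v (j + 3), .I2)]
  | (v, .I2) => [(piv h (j + 6) v (j + 4), .off), (piv h (j + 6) v (j + 3), .I3),
      (piv h (j + 6) v (j + 5), .off)]
  | (v, .I3) => [(piv h (j + 6) v (j + 3), .I4), (piv h (j + 6) v (j + 5), .off),
      (piv h (j + 6) v (j + 4), .off)]
  | (v, .I4) => [(piv h (j + 6) v (j + 5), .off), (piv h (j + 6) v (j + 3), .I1),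
      (piv h (j + 6) v (j + 4), .off)]

/-- first record replacing a record -/
noncomputable def fst' (h : Form 5) (j : ℕ) : Vx 5 × Mk → Vx 5 × Mk
  | (v, .off) => (v, .off)
  | (v, .g0) => (v, .off)
  | (v, .g1) => (piv h (j + 6) v (j + 5), .off)
  | (v, .I1) => (piv h (j + 6) v (j + 4), .off)
  | (v, .I2) => (piv h (j + 6) v (j + 4), .off)
  | (v, .I3) => (piv h (j + 6) v (j + 3), .I4)
  | (v, .I4) => (piv h (j + 6) v (j + 5), .off)

/-- last record replacing a record -/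
noncomputable def lst' (h : Form 5) (j : ℕ) : Vx 5 × Mk → Vx 5 × Mk
  | (v, .off) => (v, .off)
  | (v, .g0) => (piv h (j + 6) v 0, .g1)
  | (v, .g1) => (piv h (j + 6) v (j + 4), .off)
  | (v, .I1) => (piv h (j + 6) v (j + 3), .I2)
  | (v, .I2) => (piv h (j + 6) v (j + 5), .off)
  | (v, .I3) => (piv h (j + 6) v (j + 4), .off)
  | (v, .I4) => (piv h (j + 6) v (j + 4), .off)

lemma ex_ne_nil (h : Form 5) (j : ℕ) (p : Vx 5 × Mk) : ex h j p ≠ [] := by
  obtain ⟨v, m⟩ := p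
  cases m <;> simp [ex]

lemma ex_head (h : Form 5) (j : ℕ) (p : Vx 5 × Mk) : (ex h j p).head? = some (fst' h j p) := by
  obtain ⟨v, m⟩ := p
  cases m <;> simp [ex, fst']

lemma ex_last (h : Form 5) (j : ℕ) (p : Vx 5 × Mk) :
    (ex h j p).getLast? = some (lst' h j p) := by
  obtain ⟨v, m⟩ := p
  cases m <;> simp [ex, lst']

/-! ### Tight sets of pivots -/

lemma sdiff_two {T : Finset ℕ} {n a b : ℕ} (hn : n ∉ T) (hb : b ∈ T) (hab : a ≠ b) :
    insert n (T.erase a) \ insert n (T.erase b) = {b} := by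
  ext x
  simp only [Finset.mem_sdiff, Finset.mem_insert, Finset.mem_erase, Finset.mem_singleton]
  constructor
  · rintro ⟨h1 | ⟨h1, h2⟩, h3⟩
    · exact absurd (Or.inl h1) h3
    · by_contra h4
      exact h3 (Or.inr ⟨h4, h2⟩)
  · rintro rfl
    refine ⟨Or.inr ⟨hab.symm, hb⟩, ?_⟩
    rintro (h1 | ⟨h1, -⟩)
    · exact hn (h1 ▸ hb)
    · exact h1 rfl

lemma sdiff_self_piv {T : Finset ℕ} {n a : ℕ} (hn : n ∉ T) (ha : a ∈ T) :
    T \ insert n (T.erase a) = {a} := by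
  ext x
  simp only [Finset.mem_sdiff, Finset.mem_insert, Finset.mem_erase, Finset.mem_singleton]
  constructor
  · rintro ⟨h1, h3⟩
    by_contra h4
    exact h3 (Or.inr ⟨h4, h1⟩)
  · rintro rfl
    refine ⟨ha, ?_⟩
    rintro (h1 | ⟨h1, -⟩)
    · exact hn (h1 ▸ ha)
    · exact h1 rfl

lemma sdiff_piv_self {T : Finset ℕ} {n a : ℕ} (hn : n ∉ T) :
    insert n (T.erase a) \ T = {n} := by
  ext x
  simp only [Finset.mem_sdiff, Finset.mem_insert, Finset.mem_erase, Finset.mem_singleton]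
  constructor
  · rintro ⟨h1 | ⟨h1, h2⟩, h3⟩
    · exact h1
    · exact absurd h2 h3
  · rintro rfl
    exact ⟨Or.inl rfl, hn⟩

/-- `S` a neighbour of `T` through the label `a` of `T` -/
lemma sdiff_piv_left {S T : Finset ℕ} {n a F : ℕ} (hnS : n ∉ S) (h1 : T \ S = {a})
    (h2 : S \ T = {F}) : insert n (T.erase a) \ S = {n} ∧ S \ insert n (T.erase a) = {F} := by
  have haS : a ∉ S := by
    have : a ∈ T \ S := by rw [h1]; exact Finset.mem_singleton_self a
    exact (Finset.mem_sdiff.1 this).2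
  have hsub : ∀ x, x ∈ T → x ≠ a → x ∈ S := by
    intro x hx hxa
    by_contra h3
    have : x ∈ T \ S := Finset.mem_sdiff.2 ⟨hx, h3⟩
    rw [h1, Finset.mem_singleton] at this
    exact hxa this
  constructor
  · ext x
    simp only [Finset.mem_sdiff, Finset.mem_insert, Finset.mem_erase, Finset.mem_singleton]
    constructor
    · rintro ⟨h3 | ⟨h3, h4⟩, h5⟩
      · exact h3
      · exact absurd (hsub x h4 h3) h5
    · rintro rfl
      exact ⟨Or.inl rfl, hnS⟩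
  · rw [← h2]
    ext x
    simp only [Finset.mem_sdiff, Finset.mem_insert, Finset.mem_erase]
    constructor
    · rintro ⟨h3, h4⟩
      refine ⟨h3, fun h5 => h4 (Or.inr ⟨?_, h5⟩)⟩
      rintro rfl
      exact haS h3
    · rintro ⟨h3, h4⟩
      refine ⟨h3, ?_⟩
      rintro (h5 | ⟨-, h5⟩)
      · exact hnS (h5 ▸ h3)
      · exact h4 h5

end Pool.Agent.H81.MP5
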