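import Pool.Agent.H81.MP5.Local

set_option autoImplicit false

/-!
The inductive step in dimension 5: the link between the records replacing two consecutive ones,
and the combinatorial form of the whole step.
-/

namespace Pool.Agent.H81.MP5

open Matrix Filter Topology Pool.Agent.H81.MonoPath

variable {H : ℕ → Form 5} {c : Fin 5 → ℝ} {h : Form 5} {j : ℕ}

/-- label removed by the first record: none for kept records -/
def fl (j : ℕ) : Mk → Option ℕ
  | .off => none
  | .g0 => none
  | .g1 => some (j + 5)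
  | .I1 => some (j + 4)
  | .I2 => some (j + 4)
  | .I3 => some (j + 3)
  | .I4 => some (j + 5)

/-- the records replacing two consecutive records are linked -/
lemma ex_link {p q : Vx 5 × Mk} (hp : j + 6 ∉ p.1.T) (hq : j + 6 ∉ q.1.T)
    (hmp : MkOK c j p.1 p.2) (hmq : MkOK c j q.1 q.2)
    (hr : Rel c j p q) (hlt : c ⬝ᵥ (lst' h j p).1.x < c ⬝ᵥ (fst' h j q).1.x) :
    Rel c (j + 1) (lst' h j p) (fst' h j q) := by
  obtain ⟨v, m⟩ := p
  obtain ⟨w, m'⟩ := q
  obtain ⟨-, hcomp, F, F', hF, hF', hs, hpd⟩ := hr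
  change v.T \ w.T = {F} at hF
  change w.T \ v.T = {F'} at hF'
  change j + 6 ∉ v.T at hp
  change j + 6 ∉ w.T at hq
  cases m with
  | off =>
    have key : ∀ (m₁ : Mk) , F' ∈ w.T → PredOK (j + 1) m₁ (j + 6) → m₁ ≠ .g1 →
        c ⬝ᵥ v.x < c ⬝ᵥ (piv h (j + 6) w F').x →
        Rel c (j + 1) (v, .off) (piv h (j + 6) w F', m₁) := by
      intro m₁ _ h2 h3 h4
      obtain ⟨e1, e2⟩ := sdiff_piv_left hp hF' hF
      exact ⟨h4, h3, F, j + 6, e2, e1, trivial, h2⟩
    have hF'm : F' ∈ w.T := by
      have : F' ∈ w.T \ v.T := by rw [hF']; exact Finset.mem_singleton_self F'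
      exact (Finset.mem_sdiff.1 this).1
    cases m' with
    | off => exact ⟨hlt, by simp [Compat, fst', lst'], F, F', hF, hF', trivial, trivial⟩
    | g0 => exact ⟨hlt, by simp [Compat, fst', lst'], F, F', hF, hF', trivial, trivial⟩
    | g1 => exact absurd rfl hcomp
    | I1 =>
      have e : F' = j + 4 := hpd
      subst e
      exact key .off hF'm trivial (by simp) hlt
    | I2 =>
      have e : F' = j + 4 := hpd
      subst e
      exact key .off hF'm trivial (by simp) hlt
    | I3 =>
      have e : F' = j + 3 := hpd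
      subst e
      exact key .I4 hF'm rfl (by simp) hlt
    | I4 =>
      have e : F' = j + 5 := hpd
      subst e
      exact key .off hF'm trivial (by simp) hlt
  | g0 =>
    have e : m' = .g1 := hcomp
    subst e
    obtain ⟨hT, -, -⟩ := hmp
    obtain ⟨hT', -, -⟩ := hmq
    change v.T = _ at hT
    change w.T = _ at hT'
    refine ⟨hlt, by simp [Compat, fst', lst'], j + 5, j + 1, ?_, ?_, rfl, trivial⟩
    · change (insert (j + 6) (v.T.erase 0)) \ (insert (j + 6) (w.T.erase (j + 5))) = _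
      rw [hT, hT']
      ext x
      simp only [Finset.mem_sdiff, Finset.mem_insert, Finset.mem_erase, Finset.mem_singleton]
      omega
    · change (insert (j + 6) (w.T.erase (j + 5))) \ (insert (j + 6) (v.T.erase 0)) = _
      rw [hT, hT']
      ext x
      simp only [Finset.mem_sdiff, Finset.mem_insert, Finset.mem_erase, Finset.mem_singleton]
      omega
  | g1 =>
    have e : m' = .off := hcomp
    subst e
    have e : F = j + 4 := hs
    subst e
    obtain ⟨e1, e2⟩ := sdiff_piv_left hq hF hF'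
    exact ⟨hlt, by simp [Compat, fst', lst'], j + 6, F', e1, e2, trivial, trivial⟩
  | I1 =>
    have e : m' = .off := hcomp
    subst e
    have e : F = j + 3 := hs
    subst e
    obtain ⟨e1, e2⟩ := sdiff_piv_left hq hF hF'
    exact ⟨hlt, by simp [Compat, fst', lst'], j + 6, F', e1, e2, rfl, trivial⟩
  | I2 =>
    have e : m' = .off := hcomp
    subst e
    have e : F = j + 5 := hs
    subst e
    obtain ⟨e1, e2⟩ := sdiff_piv_left hq hF hF'
    exact ⟨hlt, by simp [Compat, fst', lst'], j + 6, F', e1, e2, trivial, trivial⟩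
  | I3 =>
    have e : m' = .off := hcomp
    subst e
    have e : F = j + 4 := hs
    subst e
    obtain ⟨e1, e2⟩ := sdiff_piv_left hq hF hF'
    exact ⟨hlt, by simp [Compat, fst', lst'], j + 6, F', e1, e2, trivial, trivial⟩
  | I4 =>
    have e : m' = .off := hcomp
    subst e
    have e : F = j + 4 := hs
    subst e
    obtain ⟨e1, e2⟩ := sdiff_piv_left hq hF hF'
    exact ⟨hlt, by simp [Compat, fst', lst'], j + 6, F', e1, e2, trivial, trivial⟩

/-- labels survive -/
lemma ex_cover (h : Form 5) (j : ℕ) (p : Vx 5 × Mk) (F : ℕ) (hF : F ∈ p.1.T) :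
    ∃ q ∈ ex h j p, F ∈ q.1.T := by
  obtain ⟨v, m⟩ := p
  change F ∈ v.T at hF
  have key : ∀ l, F ≠ l → F ∈ (piv h (j + 6) v l).T := fun l hl =>
    Finset.mem_insert.2 (Or.inr (Finset.mem_erase.2 ⟨hl, hF⟩))
  cases m with
  | off => exact ⟨(v, .off), by simp [ex], hF⟩
  | g0 => exact ⟨(v, .off), by simp [ex], hF⟩
  | g1 =>
    by_cases h3 : F = j + 5
    · exact ⟨(piv h (j + 6) v (j + 4), .off), by simp [ex], key _ (by omega)⟩
    · exact ⟨(piv h (j + 6) v (j + 5), .off), by simp [ex], key _ h3⟩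
  | I1 =>
    by_cases h3 : F = j + 5
    · exact ⟨(piv h (j + 6) v (j + 4), .off), by simp [ex], key _ (by omega)⟩
    · exact ⟨(piv h (j + 6) v (j + 5), .off), by simp [ex], key _ h3⟩
  | I2 =>
    by_cases h3 : F = j + 5
    · exact ⟨(piv h (j + 6) v (j + 4), .off), by simp [ex], key _ (by omega)⟩
    · exact ⟨(piv h (j + 6) v (j + 5), .off), by simp [ex], key _ h3⟩
  | I3 =>
    by_cases h3 : F = j + 5
    · exact ⟨(piv h (j + 6) v (j + 4), .off), by simp [ex], key _ (by omega)⟩
    · exact ⟨(piv h (j + 6) v (j + 5), .off), by simp [ex], key _ h3⟩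
  | I4 =>
    by_cases h3 : F = j + 5
    · exact ⟨(piv h (j + 6) v (j + 4), .off), by simp [ex], key _ (by omega)⟩
    · exact ⟨(piv h (j + 6) v (j + 5), .off), by simp [ex], key _ h3⟩

/-- the new label appears -/
lemma ex_cover_new (h : Form 5) (j : ℕ) (p : Vx 5 × Mk) (hp : p.2 = .g0) :
    ∃ q ∈ ex h j p, j + 6 ∈ q.1.T := by
  obtain ⟨v, m⟩ := p
  change m = .g0 at hp
  subst hp
  exact ⟨(piv h (j + 6) v 0, .g1), by simp [ex], Finset.mem_insert_self _ _⟩

/-- number of active vertices -/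
def nact (L : List (Vx 5 × Mk)) : ℕ := L.countP (fun p => p.2 ≠ .off)

/-- number of vertices marked `g0` -/
def ng0 (L : List (Vx 5 × Mk)) : ℕ := L.countP (fun p => p.2 = .g0)

lemma length_ex (h : Form 5) (j : ℕ) (L : List (Vx 5 × Mk)) :
    (L.flatMap (ex h j)).length = L.length + 2 * nact L := by
  induction L with
  | nil => rfl
  | cons p L ih =>
    obtain ⟨v, m⟩ := p
    rw [List.flatMap_cons, List.length_append, ih]
    unfold nact
    rw [List.countP_cons]
    cases m <;> simp [ex] <;> omega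

lemma nact_ex (h : Form 5) (j : ℕ) (L : List (Vx 5 × Mk)) :
    nact (L.flatMap (ex h j)) = nact L + ng0 L := by
  induction L with
  | nil => rfl
  | cons p L ih =>
    obtain ⟨v, m⟩ := p
    unfold nact ng0 at *
    rw [List.flatMap_cons, List.countP_append, ih, List.countP_cons, List.countP_cons]
    cases m <;> simp [ex] <;> omega

lemma ng0_ex (h : Form 5) (j : ℕ) (L : List (Vx 5 × Mk)) :
    ng0 (L.flatMap (ex h j)) = ng0 L := by
  induction L with
  | nil => rfl
  | cons p L ih =>
    obtain ⟨v, m⟩ := p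
    unfold ng0 at *
    rw [List.flatMap_cons, List.countP_append, ih, List.countP_cons]
    cases m <;> simp [ex] <;> omega

/-- the inductive statement -/
structure Inv (H : ℕ → Form 5) (c : Fin 5 → ℝ) (j : ℕ) (L : List (Vx 5 × Mk)) : Prop where
  vert : ∀ p ∈ L, IsV H (j + 5) p.1 ∧ MkOK c j p.1 p.2
  chain : L.IsChain (Rel c j)
  cover : ∀ F, F ≤ j + 5 → ∃ p ∈ L, F ∈ p.1.T
  len : L.length = (j + 3) * (j + 2)
  act : nact L = j + 3
  uni : ng0 L = 1

/-- the step, given the numerical conditions -/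
lemma Inv.step {L : List (Vx 5 × Mk)} (hI : Inv H c j L) (he : ∀ p ∈ L, EOK H c h j p)
    (hp : L.IsChain (fun p q => c ⬝ᵥ (lst' h j p).1.x < c ⬝ᵥ (fst' h j q).1.x)) :
    Inv (upd H (j + 5) h) c (j + 1) (L.flatMap (ex h j)) := by
  refine ⟨?_, ?_, ?_, ?_, ?_, ?_⟩
  · intro q hq
    obtain ⟨p, hpL, hq⟩ := List.mem_flatMap.1 hq
    obtain ⟨h1, h2⟩ := hI.vert p hpL
    exact ex_vert h1 h2 (he p hpL) q hq
  · rw [List.flatMap_def, List.isChain_flatten]
    · constructor
      · intro l hl
        obtain ⟨p, hpL, rfl⟩ := List.mem_map.1 hl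
        obtain ⟨h1, h2⟩ := hI.vert p hpL
        exact ex_chain h1 h2 (he p hpL)
      · rw [List.isChain_map]
        rw [List.isChain_iff_getElem]
        intro i hi
        have h1 := List.isChain_iff_getElem.1 hI.chain i hi
        have h2 := List.isChain_iff_getElem.1 hp i hi
        obtain ⟨v1, m1⟩ := hI.vert _ (List.getElem_mem (Nat.lt_of_succ_lt hi))
        obtain ⟨v2, m2⟩ := hI.vert _ (List.getElem_mem hi)
        rw [ex_last, ex_head]
        intro x hx y hy
        simp only [Option.mem_def, Option.some.injEq] at hx hy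
        subst hx hy
        exact ex_link v1.notMem v2.notMem m1 m2 h1 h2
    · intro h0
      obtain ⟨p, -, hp0⟩ := List.mem_map.1 h0
      exact ex_ne_nil h j p hp0
  · intro F hF
    rcases Nat.lt_or_ge (j + 5) F with h1 | h1
    · have hF6 : F = j + 6 := by omega
      subst hF6
      have h2 : 0 < ng0 L := by rw [hI.uni]; exact Nat.one_pos
      obtain ⟨p, hpL, hp0⟩ := List.countP_pos_iff.1 h2
      obtain ⟨q, hq, hqT⟩ := ex_cover_new h j p (by simpa using hp0)
      exact ⟨q, List.mem_flatMap.2 ⟨p, hpL, hq⟩, hqT⟩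
    · obtain ⟨p, hpL, hpF⟩ := hI.cover F h1
      obtain ⟨q, hq, hqT⟩ := ex_cover h j p F hpF
      exact ⟨q, List.mem_flatMap.2 ⟨p, hpL, hq⟩, hqT⟩
  · rw [length_ex, hI.len, hI.act]
    ring
  · rw [nact_ex, hI.act, hI.uni]
  · rw [ng0_ex, hI.uni]

end Pool.Agent.H81.MP5
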