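import Pool.Agent.H81.MP5.Defs

set_option autoImplicit false

/-!
The inductive step in dimension 5, local part: the records replacing one record, and the link
between the records replacing two consecutive ones.
-/

namespace Pool.Agent.H81.MP5

open Matrix Filter Topology Pool.Agent.H81.MonoPath

/-- speed of the pivots -/
noncomputable def mm (c : Fin 5 → ℝ) (h : Form 5) (v : Vx 5) (F : ℕ) : ℝ :=
  (c ⬝ᵥ v.u F) / D h (v.u F)

/-- the pivot stays strictly inside the other facets -/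
def PosAt (H : ℕ → Form 5) (k : ℕ) (h : Form 5) (v : Vx 5) (l : ℕ) : Prop :=
  ∀ F, F ≤ k → F ∉ v.T → 0 < ev (H F) (v.x + (-(ev h v.x) / D h (v.u l)) • v.u l)

/-- the new form cuts off `v` and the three new points are fine -/
def ActOK (H : ℕ → Form 5) (h : Form 5) (j : ℕ) (v : Vx 5) : Prop :=
  ev h v.x < 0 ∧ ∀ F, (F = j + 3 ∨ F = j + 4 ∨ F = j + 5) →
    0 < D h (v.u F) ∧ PosAt H (j + 5) h v F

/-- numerical conditions on a record -/
def EOK (H : ℕ → Form 5) (c : Fin 5 → ℝ) (h : Form 5) (j : ℕ) : Vx 5 × Mk → Prop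
  | (v, .off) => 0 < ev h v.x
  | (v, .g0) => 0 < ev h v.x ∧ D h (v.u 0) < 0 ∧ D h (v.u (j + 2)) < 0 ∧
      PosAt H (j + 5) h v 0 ∧ PosAt H (j + 5) h v (j + 2) ∧
      c ⬝ᵥ v.x < c ⬝ᵥ (piv h (j + 6) v (j + 2)).x ∧
      c ⬝ᵥ (piv h (j + 6) v (j + 2)).x < c ⬝ᵥ (piv h (j + 6) v 0).x ∧
      0 < c ⬝ᵥ (piv h (j + 6) v (j + 2)).u 0 ∧
      0 < c ⬝ᵥ (piv h (j + 6) v (j + 2)).u (j + 3) ∧
      0 < c ⬝ᵥ (piv h (j + 6) v 0).u (j + 5) ∧
      0 < c ⬝ᵥ (piv h (j + 6) v 0).u (j + 4)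
  | (v, .g1) => ActOK H h j v ∧ mm c h v (j + 5) < mm c h v (j + 3) ∧
      mm c h v (j + 3) < mm c h v (j + 4)
  | (v, .I1) => ActOK H h j v ∧ mm c h v (j + 4) < mm c h v (j + 5) ∧
      mm c h v (j + 5) < mm c h v (j + 3)
  | (v, .I2) => ActOK H h j v ∧ mm c h v (j + 4) < mm c h v (j + 3) ∧
      mm c h v (j + 3) < mm c h v (j + 5)
  | (v, .I3) => ActOK H h j v ∧ mm c h v (j + 3) < mm c h v (j + 5) ∧
      mm c h v (j + 5) < mm c h v (j + 4)
  | (v, .I4) => ActOK H h j v ∧ mm c h v (j + 5) < mm c h v (j + 3) ∧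
      mm c h v (j + 3) < mm c h v (j + 4)

variable {H : ℕ → Form 5} {c : Fin 5 → ℝ} {h : Form 5} {j : ℕ} {v : Vx 5}

lemma ActOK.isV (ha : ActOK H h j v) (hv : IsV H (j + 5) v) {F : ℕ} (hF : F ∈ v.T)
    (hF3 : F = j + 3 ∨ F = j + 4 ∨ F = j + 5) :
    IsV (upd H (j + 5) h) (j + 6) (piv h (j + 6) v F) := by
  obtain ⟨h1, h2⟩ := ha
  obtain ⟨h3, h4⟩ := h2 F hF3
  exact hv.piv h F hF (div_pos (by linarith) h3) h4

lemma piv_lt (hneg : ev h v.x < 0) {F F' : ℕ} (hm : mm c h v F < mm c h v F') :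
    c ⬝ᵥ (piv h (j + 6) v F).x < c ⬝ᵥ (piv h (j + 6) v F').x := by
  rw [dot_piv, dot_piv]
  have h1 : 0 < -(ev h v.x) := by linarith
  have h2 := mul_lt_mul_of_pos_left hm h1
  unfold mm at h2
  linarith

lemma slope_pos {F l : ℕ} (hF : F ≠ j + 6) (hD : 0 < D h (v.u F))
    (hm : mm c h v l < mm c h v F) : 0 < c ⬝ᵥ (piv h (j + 6) v l).u F := by
  rw [dot_piv_u c h (j + 6) v l F hF]
  have h1 : c ⬝ᵥ v.u F = D h (v.u F) * mm c h v F := by
    unfold mm; field_simp
  have h2 := mul_lt_mul_of_pos_left hm hD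
  unfold mm at h1 h2
  linarith

lemma slope_neg {F l : ℕ} (hF : F ≠ j + 6) (hD : 0 < D h (v.u F))
    (hm : mm c h v F < mm c h v l) : c ⬝ᵥ (piv h (j + 6) v l).u F < 0 := by
  rw [dot_piv_u c h (j + 6) v l F hF]
  have h1 : c ⬝ᵥ v.u F = D h (v.u F) * mm c h v F := by
    unfold mm; field_simp
  have h2 := mul_lt_mul_of_pos_left hm hD
  unfold mm at h1 h2
  linarith

/-- labels of the new active vertex -/
lemma act_new (hact : Act j v.T) : Act (j + 1) (piv h (j + 6) v (j + 3)).T := by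
  obtain ⟨h3, h4, h5, h2⟩ := hact
  rw [piv_T]
  refine ⟨?_, ?_, ?_, ?_⟩
  · exact Finset.mem_insert.2 (Or.inr (Finset.mem_erase.2 ⟨by omega, h4⟩))
  · exact Finset.mem_insert.2 (Or.inr (Finset.mem_erase.2 ⟨by omega, h5⟩))
  · exact Finset.mem_insert.2 (Or.inl (by omega))
  · intro h0
    rcases Finset.mem_insert.1 h0 with h1 | h1
    · omega
    · exact (Finset.ne_of_mem_erase h1) (by omega)

lemma off4 : j + 1 + 3 ∉ (piv h (j + 6) v (j + 4)).T ∨
    j + 1 + 4 ∉ (piv h (j + 6) v (j + 4)).T ∨ j + 1 + 5 ∉ (piv h (j + 6) v (j + 4)).T := by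
  left
  rw [piv_T]
  intro h0
  rcases Finset.mem_insert.1 h0 with h1 | h1
  · omega
  · exact (Finset.ne_of_mem_erase h1) (by omega)

lemma off5 : j + 1 + 3 ∉ (piv h (j + 6) v (j + 5)).T ∨
    j + 1 + 4 ∉ (piv h (j + 6) v (j + 5)).T ∨ j + 1 + 5 ∉ (piv h (j + 6) v (j + 5)).T := by
  right; left
  rw [piv_T]
  intro h0
  rcases Finset.mem_insert.1 h0 with h1 | h1
  · omega
  · exact (Finset.ne_of_mem_erase h1) (by omega)

lemma off_keep (hn : j + 6 ∉ v.T) : j + 1 + 3 ∉ v.T ∨ j + 1 + 4 ∉ v.T ∨ j + 1 + 5 ∉ v.T :=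
  Or.inr (Or.inr hn)

/-- the records replacing a record are vertices with the right marks -/
lemma ex_vert {p : Vx 5 × Mk} (hv : IsV H (j + 5) p.1) (hm : MkOK c j p.1 p.2)
    (he : EOK H c h j p) :
    ∀ q ∈ ex h j p, IsV (upd H (j + 5) h) (j + 6) q.1 ∧ MkOK c (j + 1) q.1 q.2 := by
  obtain ⟨v, m⟩ := p
  have hn : j + 6 ∉ v.T := hv.notMem
  cases m with
  | off =>
    intro q hq
    simp only [ex, List.mem_singleton] at hq
    subst hq
    exact ⟨hv.keep h he, off_keep hn⟩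
  | g0 =>
    obtain ⟨e1, e2, e3, e4, e5, e6, e7, e8, e9, e10, e11⟩ := he
    obtain ⟨hT, hs0, hs2⟩ := hm
    change v.T = _ at hT
    have m0 : 0 ∈ v.T := by rw [hT]; simp
    have m2 : j + 2 ∈ v.T := by rw [hT]; simp
    intro q hq
    simp only [ex, List.mem_cons, List.not_mem_nil, or_false] at hq
    rcases hq with rfl | rfl | rfl
    · exact ⟨hv.keep h e1, off_keep hn⟩
    · refine ⟨hv.piv h _ m2 (div_pos_of_neg_of_neg (by linarith) e3) e5, ?_, e8, e9⟩
      change (piv h (j + 6) v (j + 2)).T = _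
      rw [piv_T, hT]
      ext x
      simp only [Finset.mem_insert, Finset.mem_erase, Finset.mem_singleton]
      omega
    · refine ⟨hv.piv h _ m0 (div_pos_of_neg_of_neg (by linarith) e2) e4, ?_, e10, e11⟩
      change (piv h (j + 6) v 0).T = _
      rw [piv_T, hT]
      ext x
      simp only [Finset.mem_insert, Finset.mem_erase, Finset.mem_singleton]
      omega
  | g1 =>
    obtain ⟨ha, o1, o2⟩ := he
    obtain ⟨hT, hs4, hs3⟩ := hm
    change v.T = _ at hT
    have m3 : j + 3 ∈ v.T := by rw [hT]; simp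
    have m4 : j + 4 ∈ v.T := by rw [hT]; simp
    have m5 : j + 5 ∈ v.T := by rw [hT]; simp
    intro q hq
    simp only [ex, List.mem_cons, List.not_mem_nil, or_false] at hq
    rcases hq with rfl | rfl | rfl
    · exact ⟨ha.isV hv m5 (by omega), off5⟩
    · refine ⟨ha.isV hv m3 (by omega), ?_, ?_, ?_⟩
      · change Act (j + 1) (piv h (j + 6) v (j + 3)).T
        rw [piv_T, hT]
        refine ⟨?_, ?_, ?_, ?_⟩ <;>
        simp only [Finset.mem_insert, Finset.mem_erase, Finset.mem_singleton, true_or, or_true,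
          and_true] <;> omega
      · exact slope_neg (by omega) (ha.2 _ (by omega)).1 o1
      · exact slope_pos (by omega) (ha.2 _ (by omega)).1 o2
    · exact ⟨ha.isV hv m4 (by omega), off4⟩
  | I1 =>
    obtain ⟨ha, o1, o2⟩ := he
    obtain ⟨hact, hs4, hs3⟩ := hm
    obtain ⟨m3, m4, m5, m2⟩ := id hact
    intro q hq
    simp only [ex, List.mem_cons, List.not_mem_nil, or_false] at hq
    rcases hq with rfl | rfl | rfl
    · exact ⟨ha.isV hv m4 (by omega), off4⟩
    · exact ⟨ha.isV hv m5 (by omega), off5⟩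
    · exact ⟨ha.isV hv m3 (by omega), act_new hact,
        slope_neg (by omega) (ha.2 _ (by omega)).1 o2,
        slope_neg (by omega) (ha.2 _ (by omega)).1 (o1.trans o2)⟩
  | I2 =>
    obtain ⟨ha, o1, o2⟩ := he
    obtain ⟨hact, hs4, hs3⟩ := hm
    obtain ⟨m3, m4, m5, m2⟩ := id hact
    intro q hq
    simp only [ex, List.mem_cons, List.not_mem_nil, or_false] at hq
    rcases hq with rfl | rfl | rfl
    · exact ⟨ha.isV hv m4 (by omega), off4⟩
    · exact ⟨ha.isV hv m3 (by omega), act_new hact,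
        slope_pos (by omega) (ha.2 _ (by omega)).1 o2,
        slope_neg (by omega) (ha.2 _ (by omega)).1 o1⟩
    · exact ⟨ha.isV hv m5 (by omega), off5⟩
  | I3 =>
    obtain ⟨ha, o1, o2⟩ := he
    obtain ⟨hact, hs4, hs3⟩ := hm
    obtain ⟨m3, m4, m5, m2⟩ := id hact
    intro q hq
    simp only [ex, List.mem_cons, List.not_mem_nil, or_false] at hq
    rcases hq with rfl | rfl | rfl
    · exact ⟨ha.isV hv m3 (by omega), act_new hact,
        slope_pos (by omega) (ha.2 _ (by omega)).1 o1,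
        slope_pos (by omega) (ha.2 _ (by omega)).1 (o1.trans o2)⟩
    · exact ⟨ha.isV hv m5 (by omega), off5⟩
    · exact ⟨ha.isV hv m4 (by omega), off4⟩
  | I4 =>
    obtain ⟨ha, o1, o2⟩ := he
    obtain ⟨hact, hs4, hs3⟩ := hm
    obtain ⟨m3, m4, m5, m2⟩ := id hact
    intro q hq
    simp only [ex, List.mem_cons, List.not_mem_nil, or_false] at hq
    rcases hq with rfl | rfl | rfl
    · exact ⟨ha.isV hv m5 (by omega), off5⟩
    · exact ⟨ha.isV hv m3 (by omega), act_new hact,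
        slope_neg (by omega) (ha.2 _ (by omega)).1 o1,
        slope_pos (by omega) (ha.2 _ (by omega)).1 o2⟩
    · exact ⟨ha.isV hv m4 (by omega), off4⟩

/-- two pivots of the same record are adjacent -/
lemma rel_two (hn : j + 6 ∉ v.T) {a b : ℕ} (ha : a ∈ v.T) (hb : b ∈ v.T) (hab : a ≠ b)
    (hlt : c ⬝ᵥ (piv h (j + 6) v a).x < c ⬝ᵥ (piv h (j + 6) v b).x) {m m' : Mk}
    (hc : Compat m m') (h1 : SuccOK (j + 1) m b) (h2 : PredOK (j + 1) m' a) :
    Rel c (j + 1) (piv h (j + 6) v a, m) (piv h (j + 6) v b, m') := by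
  refine ⟨hlt, hc, b, a, ?_, ?_, h1, h2⟩
  · change insert (j + 6) (v.T.erase a) \ insert (j + 6) (v.T.erase b) = {b}
    exact sdiff_two hn hb hab
  · change insert (j + 6) (v.T.erase b) \ insert (j + 6) (v.T.erase a) = {a}
    exact sdiff_two hn ha hab.symm

/-- the records replacing a record form a chain -/
lemma ex_chain {p : Vx 5 × Mk} (hv : IsV H (j + 5) p.1) (hm : MkOK c j p.1 p.2)
    (he : EOK H c h j p) : (ex h j p).IsChain (Rel c (j + 1)) := by
  obtain ⟨v, m⟩ := p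
  have hn : j + 6 ∉ v.T := hv.notMem
  cases m with
  | off => simp [ex]
  | g0 =>
    obtain ⟨e1, e2, e3, e4, e5, e6, e7, e8, e9, e10, e11⟩ := he
    obtain ⟨hT, hs0, hs2⟩ := hm
    change v.T = _ at hT
    have m0 : 0 ∈ v.T := by rw [hT]; simp
    have m2 : j + 2 ∈ v.T := by rw [hT]; simp
    simp only [ex, List.isChain_cons_cons, List.isChain_singleton, and_true]
    refine ⟨⟨e6, by simp [Compat], j + 2, j + 6, sdiff_self_piv hn m2, sdiff_piv_self hn,
      trivial, trivial⟩, ?_⟩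
    exact rel_two hn m2 m0 (by omega) e7 rfl rfl (by simp only [PredOK])
  | g1 =>
    obtain ⟨ha, o1, o2⟩ := he
    obtain ⟨hT, hs4, hs3⟩ := hm
    change v.T = _ at hT
    have m3 : j + 3 ∈ v.T := by rw [hT]; simp
    have m4 : j + 4 ∈ v.T := by rw [hT]; simp
    have m5 : j + 5 ∈ v.T := by rw [hT]; simp
    simp only [ex, List.isChain_cons_cons, List.isChain_singleton, and_true]
    exact ⟨rel_two hn m5 m3 (by omega) (piv_lt ha.1 o1) (by simp [Compat]) trivial
        (by simp only [PredOK]),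
      rel_two hn m3 m4 (by omega) (piv_lt ha.1 o2) rfl (by simp only [SuccOK]) trivial⟩
  | I1 =>
    obtain ⟨ha, o1, o2⟩ := he
    obtain ⟨⟨m3, m4, m5, m2⟩, hs4, hs3⟩ := hm
    simp only [ex, List.isChain_cons_cons, List.isChain_singleton, and_true]
    exact ⟨rel_two hn m4 m5 (by omega) (piv_lt ha.1 o1) (by simp [Compat]) trivial trivial,
      rel_two hn m5 m3 (by omega) (piv_lt ha.1 o2) (by simp [Compat]) trivial
        (by simp only [PredOK])⟩
  | I2 =>
    obtain ⟨ha, o1, o2⟩ := he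
    obtain ⟨⟨m3, m4, m5, m2⟩, hs4, hs3⟩ := hm
    simp only [ex, List.isChain_cons_cons, List.isChain_singleton, and_true]
    exact ⟨rel_two hn m4 m3 (by omega) (piv_lt ha.1 o1) (by simp [Compat]) trivial
        (by simp only [PredOK]),
      rel_two hn m3 m5 (by omega) (piv_lt ha.1 o2) rfl (by simp only [SuccOK]) trivial⟩
  | I3 =>
    obtain ⟨ha, o1, o2⟩ := he
    obtain ⟨⟨m3, m4, m5, m2⟩, hs4, hs3⟩ := hm
    simp only [ex, List.isChain_cons_cons, List.isChain_singleton, and_true]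
    exact ⟨rel_two hn m3 m5 (by omega) (piv_lt ha.1 o1) rfl (by simp only [SuccOK]) trivial,
      rel_two hn m5 m4 (by omega) (piv_lt ha.1 o2) (by simp [Compat]) trivial trivial⟩
  | I4 =>
    obtain ⟨ha, o1, o2⟩ := he
    obtain ⟨⟨m3, m4, m5, m2⟩, hs4, hs3⟩ := hm
    simp only [ex, List.isChain_cons_cons, List.isChain_singleton, and_true]
    exact ⟨rel_two hn m5 m3 (by omega) (piv_lt ha.1 o1) (by simp [Compat]) trivial
        (by simp only [PredOK]),
      rel_two hn m3 m4 (by omega) (piv_lt ha.1 o2) rfl (by simp only [SuccOK]) trivial⟩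

end Pool.Agent.H81.MP5
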