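import Pool.Agent.H81.MP5.Link

set_option autoImplicit false

/-!
The inductive step in dimension 5, numerical part: the choice of the new facet.
-/

namespace Pool.Agent.H81.MP5

open Matrix Filter Topology Pool.Agent.H81.MonoPath

/-- the new form -/
noncomputable def nf (H : ℕ → Form 5) (j : ℕ) (K κ ε : ℝ) : Form 5 :=
  K ^ 2 • H (j + 5) + H (j + 4) + K • H (j + 3) + ε • (one - κ ^ 2 • H (j + 2) - κ • H 0)

variable {H : ℕ → Form 5} {c : Fin 5 → ℝ} {j : ℕ} {v : Vx 5} {K κ : ℝ}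

lemma ev_nf (K κ ε : ℝ) (x : Fin 5 → ℝ) : ev (nf H j K κ ε) x =
    K ^ 2 * ev (H (j + 5)) x + ev (H (j + 4)) x + K * ev (H (j + 3)) x +
      ε * (1 - κ ^ 2 * ev (H (j + 2)) x - κ * ev (H 0) x) := by
  unfold nf
  simp only [ev_fadd, ev_fsub, ev_fsmul, ev_one]

lemma D_nf (K κ ε : ℝ) (x : Fin 5 → ℝ) : D (nf H j K κ ε) x =
    K ^ 2 * D (H (j + 5)) x + D (H (j + 4)) x + K * D (H (j + 3)) x +
      ε * (- κ ^ 2 * D (H (j + 2)) x - κ * D (H 0) x) := by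
  unfold nf
  simp only [D_fadd, D_fsub, D_fsmul, D_one]
  ring

/-- limit of the derivative of the new form -/
noncomputable def alph (K : ℝ) (j F : ℕ) : ℝ := if F = j + 5 then K ^ 2 else if F = j + 4 then 1 else K

lemma alph_pos (hK : 0 < K) (j F : ℕ) : 0 < alph K j F := by
  unfold alph
  split_ifs
  · positivity
  · exact one_pos
  · exact hK

lemma alph3 (K : ℝ) (j : ℕ) : alph K j (j + 3) = K := by
  unfold alph
  rw [if_neg (by omega), if_neg (by omega)]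

lemma alph4 (K : ℝ) (j : ℕ) : alph K j (j + 4) = 1 := by
  unfold alph
  rw [if_neg (by omega), if_pos rfl]

lemma alph5 (K : ℝ) (j : ℕ) : alph K j (j + 5) = K ^ 2 := by
  unfold alph
  rw [if_pos rfl]

/-- first order term of the derivative of the new form -/
noncomputable def del (H : ℕ → Form 5) (j : ℕ) (κ : ℝ) (v : Vx 5) (F : ℕ) : ℝ :=
  - κ ^ 2 * D (H (j + 2)) (v.u F) - κ * D (H 0) (v.u F)

/-- first order term of the value of the new form -/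
noncomputable def gv (H : ℕ → Form 5) (j : ℕ) (κ : ℝ) (v : Vx 5) : ℝ :=
  1 - κ ^ 2 * ev (H (j + 2)) v.x - κ * ev (H 0) v.x

/-- the three active labels -/
def Act3 (j : ℕ) (T : Finset ℕ) : Prop := j + 3 ∈ T ∧ j + 4 ∈ T ∧ j + 5 ∈ T

lemma D_act (hv : IsV H (j + 5) v) (ha : Act3 j v.T) (ε : ℝ) {F : ℕ}
    (hF : F = j + 3 ∨ F = j + 4 ∨ F = j + 5) :
    D (nf H j K κ ε) (v.u F) = alph K j F + ε * del H j κ v F := by
  obtain ⟨m3, m4, m5⟩ := ha
  have hFT : F ∈ v.T := by rcases hF with rfl | rfl | rfl <;> assumption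
  rw [D_nf, hv.dual _ m5 _ hFT, hv.dual _ m4 _ hFT, hv.dual _ m3 _ hFT]
  unfold del alph
  rcases hF with rfl | rfl | rfl
  · rw [if_neg (by omega), if_neg (by omega), if_pos rfl, if_neg (by omega), if_neg (by omega)]
    ring
  · rw [if_neg (by omega), if_pos rfl, if_neg (by omega), if_neg (by omega), if_pos rfl]
    ring
  · rw [if_pos rfl, if_neg (by omega), if_neg (by omega), if_pos rfl]
    ring

lemma ev_act (hv : IsV H (j + 5) v) (ha : Act3 j v.T) (ε : ℝ) :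
    ev (nf H j K κ ε) v.x = ε * gv H j κ v := by
  obtain ⟨m3, m4, m5⟩ := ha
  rw [ev_nf, hv.tight _ m5, hv.tight _ m4, hv.tight _ m3]
  unfold gv
  ring

lemma tend_id : Tendsto (fun ε : ℝ => ε) (𝓝[>] 0) (𝓝 0) :=
  tendsto_id.mono_left nhdsWithin_le_nhds

lemma tend_den (a d : ℝ) : Tendsto (fun ε : ℝ => a + ε * d) (𝓝[>] 0) (𝓝 a) := by
  have := (tend_id.mul_const d).const_add a
  simpa using this

lemma tend_tau (a d g : ℝ) (ha : a ≠ 0) :
    Tendsto (fun ε : ℝ => -(ε * g) / (a + ε * d)) (𝓝[>] 0) (𝓝 0) := by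
  have h1 : Tendsto (fun ε : ℝ => -(ε * g)) (𝓝[>] 0) (𝓝 0) := by
    have := (tend_id.mul_const g).neg
    simpa using this
  have := h1.div (tend_den a d) ha
  rw [zero_div] at this
  exact this

lemma tend_mm (a d s : ℝ) (ha : a ≠ 0) :
    Tendsto (fun ε : ℝ => s / (a + ε * d)) (𝓝[>] 0) (𝓝 (s / a)) :=
  tendsto_const_nhds.div (tend_den a d) ha

/-- eventual facts at an active vertex -/
lemma act_eventually (hv : IsV H (j + 5) v) (ha : Act3 j v.T) (hK : 0 < K)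
    (hg : gv H j κ v < 0) : ∀ᶠ ε in 𝓝[>] (0 : ℝ), ActOK H (nf H j K κ ε) j v := by
  have hpos : ∀ F, (F = j + 3 ∨ F = j + 4 ∨ F = j + 5) → ∀ᶠ ε in 𝓝[>] (0 : ℝ),
      0 < D (nf H j K κ ε) (v.u F) ∧ PosAt H (j + 5) (nf H j K κ ε) v F := by
    intro F hF
    have h1 : ∀ᶠ ε in 𝓝[>] (0 : ℝ), 0 < D (nf H j K κ ε) (v.u F) := by
      have h2 := (tend_den (alph K j F) (del H j κ v F)).eventually
        (lt_mem_nhds (alph_pos hK j F))
      filter_upwards [h2] with ε hε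
      rw [D_act hv ha ε hF]
      exact hε
    have h2 : ∀ᶠ ε in 𝓝[>] (0 : ℝ), ∀ F' ∈ Finset.range (j + 6), F' ∉ v.T →
        0 < ev (H F') (v.x + (-(ev (nf H j K κ ε) v.x) / D (nf H j K κ ε) (v.u F)) • v.u F) := by
      rw [Finset.eventually_all]
      intro F' hF'
      by_cases hT : F' ∈ v.T
      · exact Eventually.of_forall (fun ε h0 => absurd hT h0)
      · have h3 : 0 < ev (H F') v.x := hv.pos F' (by simpa [Nat.lt_succ_iff] using hF') hT
        have h4 : Tendsto (fun ε : ℝ => ev (H F') v.x +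
            (-(ε * gv H j κ v) / (alph K j F + ε * del H j κ v F)) * D (H F') (v.u F))
            (𝓝[>] 0) (𝓝 (ev (H F') v.x)) := by
          have := ((tend_tau (alph K j F) (del H j κ v F) (gv H j κ v)
            (alph_pos hK j F).ne').mul_const (D (H F') (v.u F))).const_add (ev (H F') v.x)
          simpa using this
        filter_upwards [h4.eventually (lt_mem_nhds h3)] with ε hε _
        rw [ev_add_smul, D_act hv ha ε hF, ev_act hv ha ε]
        exact hε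
    filter_upwards [h1, h2] with ε e1 e2
    exact ⟨e1, fun F' hF' hT => e2 F' (Finset.mem_range.2 (by omega)) hT⟩
  filter_upwards [hpos (j + 3) (by omega), hpos (j + 4) (by omega), hpos (j + 5) (by omega),
    self_mem_nhdsWithin] with ε e3 e4 e5 e0
  refine ⟨?_, ?_⟩
  · rw [ev_act hv ha ε]
    exact mul_neg_of_pos_of_neg e0 hg
  · rintro F (rfl | rfl | rfl)
    · exact e3
    · exact e4
    · exact e5

/-- order of the speeds -/
lemma mm_eventually (hv : IsV H (j + 5) v) (ha : Act3 j v.T) (hK : 0 < K) {F F' : ℕ}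
    (hF : F = j + 3 ∨ F = j + 4 ∨ F = j + 5) (hF' : F' = j + 3 ∨ F' = j + 4 ∨ F' = j + 5)
    (hlt : (c ⬝ᵥ v.u F) / alph K j F < (c ⬝ᵥ v.u F') / alph K j F') :
    ∀ᶠ ε in 𝓝[>] (0 : ℝ), mm c (nf H j K κ ε) v F < mm c (nf H j K κ ε) v F' := by
  have h1 := tend_mm (alph K j F) (del H j κ v F) (c ⬝ᵥ v.u F) (alph_pos hK j F).ne'
  have h2 := tend_mm (alph K j F') (del H j κ v F') (c ⬝ᵥ v.u F') (alph_pos hK j F').ne'
  have h3 := h1.eventually_lt h2 hlt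
  filter_upwards [h3] with ε hε
  unfold mm
  rw [D_act hv ha ε hF, D_act hv ha ε hF']
  exact hε

/-- the pivots of an active vertex tend to it -/
lemma piv_tendsto (hv : IsV H (j + 5) v) (ha : Act3 j v.T) (hK : 0 < K) {F : ℕ}
    (hF : F = j + 3 ∨ F = j + 4 ∨ F = j + 5) (c : Fin 5 → ℝ) :
    Tendsto (fun ε : ℝ => c ⬝ᵥ (piv (nf H j K κ ε) (j + 6) v F).x) (𝓝[>] 0)
      (𝓝 (c ⬝ᵥ v.x)) := by
  have h1 : Tendsto (fun ε : ℝ => c ⬝ᵥ v.x + (-(ε * gv H j κ v)) *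
      ((c ⬝ᵥ v.u F) / (alph K j F + ε * del H j κ v F))) (𝓝[>] 0) (𝓝 (c ⬝ᵥ v.x)) := by
    have h2 := tend_mm (alph K j F) (del H j κ v F) (c ⬝ᵥ v.u F) (alph_pos hK j F).ne'
    have h3 : Tendsto (fun ε : ℝ => -(ε * gv H j κ v)) (𝓝[>] 0) (𝓝 0) := by
      have := (tend_id.mul_const (gv H j κ v)).neg
      simpa using this
    have := (h3.mul h2).const_add (c ⬝ᵥ v.x)
    simpa using this
  refine h1.congr (fun ε => ?_)
  rw [dot_piv, D_act hv ha ε hF, ev_act hv ha ε]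

/-- conditions on `κ` -/
def KapOK (H : ℕ → Form 5) (c : Fin 5 → ℝ) (j : ℕ) (κ : ℝ) : Vx 5 × Mk → Prop
  | (_, .off) => True
  | (v, .g0) => (∀ F, F ≤ j + 5 → F ∉ v.T → 0 < ev (H F) (v.x + κ⁻¹ • v.u 0)) ∧
      (∀ F, F ≤ j + 5 → F ∉ v.T → 0 < ev (H F) (v.x + (κ ^ 2)⁻¹ • v.u (j + 2))) ∧
      (κ ^ 2)⁻¹ * (c ⬝ᵥ v.u (j + 2)) < κ⁻¹ * (c ⬝ᵥ v.u 0)
  | (v, _) => gv H j κ v < 0

/-- conditions on `K` -/
def KOK (c : Fin 5 → ℝ) (j : ℕ) (K : ℝ) : Vx 5 × Mk → Prop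
  | (_, .off) => True
  | (_, .g0) => True
  | (v, .g1) => (c ⬝ᵥ v.u (j + 5)) / K ^ 2 < (c ⬝ᵥ v.u (j + 3)) / K ∧
      (c ⬝ᵥ v.u (j + 3)) / K < c ⬝ᵥ v.u (j + 4)
  | (v, .I1) => c ⬝ᵥ v.u (j + 4) < (c ⬝ᵥ v.u (j + 5)) / K ^ 2 ∧
      (c ⬝ᵥ v.u (j + 5)) / K ^ 2 < (c ⬝ᵥ v.u (j + 3)) / K
  | (v, .I2) => c ⬝ᵥ v.u (j + 4) < (c ⬝ᵥ v.u (j + 3)) / K ∧
      (c ⬝ᵥ v.u (j + 3)) / K < (c ⬝ᵥ v.u (j + 5)) / K ^ 2
  | (v, .I3) => (c ⬝ᵥ v.u (j + 3)) / K < (c ⬝ᵥ v.u (j + 5)) / K ^ 2 ∧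
      (c ⬝ᵥ v.u (j + 5)) / K ^ 2 < c ⬝ᵥ v.u (j + 4)
  | (v, .I4) => (c ⬝ᵥ v.u (j + 5)) / K ^ 2 < (c ⬝ᵥ v.u (j + 3)) / K ∧
      (c ⬝ᵥ v.u (j + 3)) / K < c ⬝ᵥ v.u (j + 4)

lemma pos_add_div_eventually (s A : ℝ) (hA : 0 < A) : ∀ᶠ ε in 𝓝[>] (0 : ℝ), 0 < s + A / ε := by
  have h1 : Tendsto (fun ε : ℝ => ε * s + A) (𝓝[>] 0) (𝓝 A) := by
    have := (tend_id.mul_const s).add_const A
    simpa using this
  filter_upwards [h1.eventually (lt_mem_nhds hA), self_mem_nhdsWithin] with ε e1 e2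
  have e3 : (0 : ℝ) < ε := e2
  have : s + A / ε = (ε * s + A) / ε := by field_simp
  rw [this]
  exact div_pos e1 e3

lemma eok_g0 (hv : IsV H (j + 5) v) (hm : MkOK c j v .g0) (hκ : 0 < κ) (hK : 0 < K)
    (hk : KapOK H c j κ (v, .g0)) :
    ∀ᶠ ε in 𝓝[>] (0 : ℝ), EOK H c (nf H j K κ ε) j (v, .g0) := by
  obtain ⟨hT, hs0, hs2⟩ := hm
  obtain ⟨k1, k2, k3⟩ := hk
  have m0 : 0 ∈ v.T := by rw [hT]; simp
  have m2 : j + 2 ∈ v.T := by rw [hT]; simp
  have m3 : j + 3 ∈ v.T := by rw [hT]; simp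
  have m4 : j + 4 ∈ v.T := by rw [hT]; simp
  have m5 : j + 5 ∈ v.T := by rw [hT]; simp
  have hev : ∀ ε, ev (nf H j K κ ε) v.x = ε := by
    intro ε
    rw [ev_nf, hv.tight _ m5, hv.tight _ m4, hv.tight _ m3, hv.tight _ m2, hv.tight _ m0]
    ring
  have hD : ∀ ε, ∀ F ∈ v.T, D (nf H j K κ ε) (v.u F) =
      K ^ 2 * (if j + 5 = F then 1 else 0) + (if j + 4 = F then 1 else 0) +
      K * (if j + 3 = F then 1 else 0) +
      ε * (- κ ^ 2 * (if j + 2 = F then 1 else 0) - κ * (if 0 = F then 1 else 0)) := by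
    intro ε F hF
    rw [D_nf, hv.dual _ m5 _ hF, hv.dual _ m4 _ hF, hv.dual _ m3 _ hF, hv.dual _ m2 _ hF,
      hv.dual _ m0 _ hF]
  have hD0 : ∀ ε, D (nf H j K κ ε) (v.u 0) = -(ε * κ) := by
    intro ε
    rw [hD ε 0 m0, if_neg (by omega), if_neg (by omega), if_neg (by omega), if_neg (by omega),
      if_pos rfl]
    ring
  have hD2 : ∀ ε, D (nf H j K κ ε) (v.u (j + 2)) = -(ε * κ ^ 2) := by
    intro ε
    rw [hD ε _ m2, if_neg (by omega), if_neg (by omega), if_neg (by omega), if_pos rfl,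
      if_neg (by omega)]
    ring
  have hD3 : ∀ ε, D (nf H j K κ ε) (v.u (j + 3)) = K := by
    intro ε
    rw [hD ε _ m3, if_neg (by omega), if_neg (by omega), if_pos rfl, if_neg (by omega),
      if_neg (by omega)]
    ring
  have hD4 : ∀ ε, D (nf H j K κ ε) (v.u (j + 4)) = 1 := by
    intro ε
    rw [hD ε _ m4, if_neg (by omega), if_pos rfl, if_neg (by omega), if_neg (by omega),
      if_neg (by omega)]
    ring
  have hD5 : ∀ ε, D (nf H j K κ ε) (v.u (j + 5)) = K ^ 2 := by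
    intro ε
    rw [hD ε _ m5, if_pos rfl, if_neg (by omega), if_neg (by omega), if_neg (by omega),
      if_neg (by omega)]
    ring
  have a1 := pos_add_div_eventually (c ⬝ᵥ v.u (j + 3)) (K * (c ⬝ᵥ v.u (j + 2)) / κ ^ 2)
    (by positivity)
  have a2 := pos_add_div_eventually (c ⬝ᵥ v.u (j + 5)) (K ^ 2 * (c ⬝ᵥ v.u 0) / κ)
    (by positivity)
  have a3 := pos_add_div_eventually (c ⬝ᵥ v.u (j + 4)) ((c ⬝ᵥ v.u 0) / κ)
    (by positivity)
  filter_upwards [a1, a2, a3, self_mem_nhdsWithin] with ε e1 e2 e3 e0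
  have e0' : (0 : ℝ) < ε := e0
  have t0 : -(ev (nf H j K κ ε) v.x) / D (nf H j K κ ε) (v.u 0) = κ⁻¹ := by
    rw [hev, hD0]; field_simp
  have t2 : -(ev (nf H j K κ ε) v.x) / D (nf H j K κ ε) (v.u (j + 2)) = (κ ^ 2)⁻¹ := by
    rw [hev, hD2]; field_simp
  have hx0 : c ⬝ᵥ (piv (nf H j K κ ε) (j + 6) v 0).x = c ⬝ᵥ v.x + κ⁻¹ * (c ⬝ᵥ v.u 0) := by
    rw [dot_piv, ← t0]; ring
  have hx2 : c ⬝ᵥ (piv (nf H j K κ ε) (j + 6) v (j + 2)).x =
      c ⬝ᵥ v.x + (κ ^ 2)⁻¹ * (c ⬝ᵥ v.u (j + 2)) := by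
    rw [dot_piv, ← t2]; ring
  refine ⟨?_, ?_, ?_, ?_, ?_, ?_, ?_, ?_, ?_, ?_, ?_⟩
  · rw [hev]; exact e0'
  · rw [hD0]; linarith [mul_pos e0' hκ]
  · rw [hD2]
    have : 0 < ε * κ ^ 2 := by positivity
    linarith
  · intro F hF hFT
    rw [t0]
    exact k1 F hF hFT
  · intro F hF hFT
    rw [t2]
    exact k2 F hF hFT
  · rw [hx2]
    have : 0 < (κ ^ 2)⁻¹ * (c ⬝ᵥ v.u (j + 2)) := by positivity
    linarith
  · rw [hx2, hx0]
    linarith
  · rw [dot_piv_u _ _ _ _ _ _ (by omega), hD0, hD2]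
    have h1 : c ⬝ᵥ v.u 0 - -(ε * κ) * (c ⬝ᵥ v.u (j + 2) / -(ε * κ ^ 2)) =
        κ * (κ⁻¹ * (c ⬝ᵥ v.u 0) - (κ ^ 2)⁻¹ * (c ⬝ᵥ v.u (j + 2))) := by
      field_simp
    rw [h1]
    apply mul_pos hκ
    linarith
  · rw [dot_piv_u _ _ _ _ _ _ (by omega), hD3, hD2]
    have h1 : c ⬝ᵥ v.u (j + 3) - K * (c ⬝ᵥ v.u (j + 2) / -(ε * κ ^ 2)) =
        c ⬝ᵥ v.u (j + 3) + K * (c ⬝ᵥ v.u (j + 2)) / κ ^ 2 / ε := by
      field_simp
      ring
    rw [h1]
    exact e1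
  · rw [dot_piv_u _ _ _ _ _ _ (by omega), hD5, hD0]
    have h1 : c ⬝ᵥ v.u (j + 5) - K ^ 2 * (c ⬝ᵥ v.u 0 / -(ε * κ)) =
        c ⬝ᵥ v.u (j + 5) + K ^ 2 * (c ⬝ᵥ v.u 0) / κ / ε := by
      field_simp
      ring
    rw [h1]
    exact e2
  · rw [dot_piv_u _ _ _ _ _ _ (by omega), hD4, hD0]
    have h1 : c ⬝ᵥ v.u (j + 4) - 1 * (c ⬝ᵥ v.u 0 / -(ε * κ)) =
        c ⬝ᵥ v.u (j + 4) + (c ⬝ᵥ v.u 0) / κ / ε := by
      field_simp
      ring
    rw [h1]
    exact e3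

lemma Act.act3 {T : Finset ℕ} (h : Act j T) : Act3 j T := ⟨h.1, h.2.1, h.2.2.1⟩

lemma act3_g1 {T : Finset ℕ} (hT : T = {j + 1, j + 2, j + 3, j + 4, j + 5}) : Act3 j T := by
  rw [hT]
  refine ⟨?_, ?_, ?_⟩ <;> simp

/-- all numerical conditions on one record hold for small `ε` -/
lemma eok_eventually {p : Vx 5 × Mk} (hv : IsV H (j + 5) p.1) (hm : MkOK c j p.1 p.2)
    (hκ : 0 < κ) (hK : 0 < K) (hk : KapOK H c j κ p) (hKK : KOK c j K p) :
    ∀ᶠ ε in 𝓝[>] (0 : ℝ), EOK H c (nf H j K κ ε) j p := by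
  obtain ⟨v, m⟩ := p
  cases m with
  | off =>
    have h0 : 0 < K ^ 2 * ev (H (j + 5)) v.x + ev (H (j + 4)) v.x + K * ev (H (j + 3)) v.x := by
      have nn : ∀ F, F ≤ j + 5 → 0 ≤ ev (H F) v.x := by
        intro F hF
        by_cases hT : F ∈ v.T
        · exact (hv.tight F hT).ge
        · exact (hv.pos F hF hT).le
      have n3 := nn (j + 3) (by omega)
      have n4 := nn (j + 4) (by omega)
      have n5 := nn (j + 5) (by omega)
      have q3 : 0 ≤ K * ev (H (j + 3)) v.x := by positivity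
      have q5 : 0 ≤ K ^ 2 * ev (H (j + 5)) v.x := by positivity
      rcases hm with h1 | h1 | h1
      · have := mul_pos hK (hv.pos (j + 3) (by omega) h1)
        linarith
      · have := hv.pos (j + 4) (by omega) h1
        change 0 < ev (H (j + 4)) v.x at this
        linarith
      · have := mul_pos (pow_pos hK 2) (hv.pos (j + 5) (by omega) h1)
        linarith
    have h1 := (tend_den (K ^ 2 * ev (H (j + 5)) v.x + ev (H (j + 4)) v.x +
      K * ev (H (j + 3)) v.x) (1 - κ ^ 2 * ev (H (j + 2)) v.x - κ * ev (H 0) v.x)).eventually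
      (lt_mem_nhds h0)
    filter_upwards [h1] with ε hε
    change 0 < ev (nf H j K κ ε) v.x
    rw [ev_nf]
    exact hε
  | g0 => exact eok_g0 hv hm hκ hK hk
  | g1 =>
    obtain ⟨hT, hs4, hs3⟩ := hm
    have h3 := act3_g1 hT
    filter_upwards [act_eventually (κ := κ) hv h3 hK hk,
      mm_eventually (c := c) (κ := κ) hv h3 hK (F := j + 5) (F' := j + 3) (by omega) (by omega)
        (by rw [alph5, alph3]; exact hKK.1),
      mm_eventually (c := c) (κ := κ) hv h3 hK (F := j + 3) (F' := j + 4) (by omega) (by omega)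
        (by rw [alph3, alph4, div_one]; exact hKK.2)] with ε e1 e2 e3
    exact ⟨e1, e2, e3⟩
  | I1 =>
    have h3 := hm.1.act3
    filter_upwards [act_eventually (κ := κ) hv h3 hK hk,
      mm_eventually (c := c) (κ := κ) hv h3 hK (F := j + 4) (F' := j + 5) (by omega) (by omega)
        (by rw [alph5, alph4, div_one]; exact hKK.1),
      mm_eventually (c := c) (κ := κ) hv h3 hK (F := j + 5) (F' := j + 3) (by omega) (by omega)
        (by rw [alph3, alph5]; exact hKK.2)] with ε e1 e2 e3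
    exact ⟨e1, e2, e3⟩
  | I2 =>
    have h3 := hm.1.act3
    filter_upwards [act_eventually (κ := κ) hv h3 hK hk,
      mm_eventually (c := c) (κ := κ) hv h3 hK (F := j + 4) (F' := j + 3) (by omega) (by omega)
        (by rw [alph3, alph4, div_one]; exact hKK.1),
      mm_eventually (c := c) (κ := κ) hv h3 hK (F := j + 3) (F' := j + 5) (by omega) (by omega)
        (by rw [alph3, alph5]; exact hKK.2)] with ε e1 e2 e3
    exact ⟨e1, e2, e3⟩
  | I3 =>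
    have h3 := hm.1.act3
    filter_upwards [act_eventually (κ := κ) hv h3 hK hk,
      mm_eventually (c := c) (κ := κ) hv h3 hK (F := j + 3) (F' := j + 5) (by omega) (by omega)
        (by rw [alph3, alph5]; exact hKK.1),
      mm_eventually (c := c) (κ := κ) hv h3 hK (F := j + 5) (F' := j + 4) (by omega) (by omega)
        (by rw [alph4, alph5, div_one]; exact hKK.2)] with ε e1 e2 e3
    exact ⟨e1, e2, e3⟩
  | I4 =>
    have h3 := hm.1.act3
    filter_upwards [act_eventually (κ := κ) hv h3 hK hk,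
      mm_eventually (c := c) (κ := κ) hv h3 hK (F := j + 5) (F' := j + 3) (by omega) (by omega)
        (by rw [alph5, alph3]; exact hKK.1),
      mm_eventually (c := c) (κ := κ) hv h3 hK (F := j + 3) (F' := j + 4) (by omega) (by omega)
        (by rw [alph3, alph4, div_one]; exact hKK.2)] with ε e1 e2 e3
    exact ⟨e1, e2, e3⟩

end Pool.Agent.H81.MP5
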