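import Pool.Agent.H81.MP5.Num

set_option autoImplicit false

/-!
The inductive step in dimension 5: existence of a suitable new facet.
-/

namespace Pool.Agent.H81.MP5

open Matrix Filter Topology Pool.Agent.H81.MonoPath

variable {H : ℕ → Form 5} {c : Fin 5 → ℝ} {j : ℕ} {v : Vx 5} {K κ : ℝ}

lemma isChain_eventually {α β : Type*} {f : Filter β} {R : β → α → α → Prop} :
    ∀ L : List α, L.IsChain (fun a b => ∀ᶠ x in f, R x a b) → ∀ᶠ x in f, L.IsChain (R x)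
  | [], _ => Eventually.of_forall (fun _ => List.isChain_nil)
  | [a], _ => Eventually.of_forall (fun _ => List.isChain_singleton a)
  | a :: b :: L, h => by
    rw [List.isChain_cons_cons] at h
    filter_upwards [h.1, isChain_eventually (b :: L) h.2] with x e1 e2
    exact List.isChain_cons_cons.2 ⟨e1, e2⟩

lemma forall_eventually {α β : Type*} {f : Filter β} {P : β → α → Prop} :
    ∀ L : List α, (∀ a ∈ L, ∀ᶠ x in f, P x a) → ∀ᶠ x in f, ∀ a ∈ L, P x a
  | [], _ => Eventually.of_forall (fun _ _ h => absurd h List.not_mem_nil)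
  | a :: L, h => by
    filter_upwards [h a List.mem_cons_self,
      forall_eventually L (fun b hb => h b (List.mem_cons_of_mem a hb))] with x e1 e2
    intro b hb
    rcases List.mem_cons.1 hb with rfl | hb
    · exact e1
    · exact e2 b hb

/-- a chain of which all members are known -/
lemma isChain_imp_mem {α : Type*} {R S : α → α → Prop} {L : List α}
    (h : ∀ a ∈ L, ∀ b ∈ L, R a b → S a b) (hL : L.IsChain R) : L.IsChain S := by
  rw [List.isChain_iff_getElem] at hL ⊢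
  intro i hi
  exact h _ (List.getElem_mem _) _ (List.getElem_mem _) (hL i hi)

lemma fst_tendsto {p : Vx 5 × Mk} (hv : IsV H (j + 5) p.1) (hm : MkOK c j p.1 p.2)
    (hK : 0 < K) : Tendsto (fun ε : ℝ => c ⬝ᵥ (fst' (nf H j K κ ε) j p).1.x) (𝓝[>] 0)
      (𝓝 (c ⬝ᵥ p.1.x)) := by
  obtain ⟨v, m⟩ := p
  cases m with
  | off => exact tendsto_const_nhds
  | g0 => exact tendsto_const_nhds
  | g1 => exact piv_tendsto hv (act3_g1 hm.1) hK (by omega) c
  | I1 => exact piv_tendsto hv hm.1.act3 hK (by omega) c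
  | I2 => exact piv_tendsto hv hm.1.act3 hK (by omega) c
  | I3 => exact piv_tendsto hv hm.1.act3 hK (by omega) c
  | I4 => exact piv_tendsto hv hm.1.act3 hK (by omega) c

lemma lst_tendsto {p : Vx 5 × Mk} (hv : IsV H (j + 5) p.1) (hm : MkOK c j p.1 p.2)
    (hK : 0 < K) (hp : p.2 ≠ .g0) :
    Tendsto (fun ε : ℝ => c ⬝ᵥ (lst' (nf H j K κ ε) j p).1.x) (𝓝[>] 0)
      (𝓝 (c ⬝ᵥ p.1.x)) := by
  obtain ⟨v, m⟩ := p
  cases m with
  | off => exact tendsto_const_nhds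
  | g0 => exact absurd rfl hp
  | g1 => exact piv_tendsto hv (act3_g1 hm.1) hK (by omega) c
  | I1 => exact piv_tendsto hv hm.1.act3 hK (by omega) c
  | I2 => exact piv_tendsto hv hm.1.act3 hK (by omega) c
  | I3 => exact piv_tendsto hv hm.1.act3 hK (by omega) c
  | I4 => exact piv_tendsto hv hm.1.act3 hK (by omega) c

/-- the last new point near `g0` does not depend on `ε` -/
lemma lst_g0 (hv : IsV H (j + 5) v) (hm : MkOK c j v .g0) (hκ : 0 < κ) {ε : ℝ} (hε : 0 < ε) :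
    c ⬝ᵥ (lst' (nf H j K κ ε) j (v, .g0)).1.x = c ⬝ᵥ v.x + κ⁻¹ * (c ⬝ᵥ v.u 0) := by
  obtain ⟨hT, hs0, hs2⟩ := hm
  have m0 : 0 ∈ v.T := by rw [hT]; simp
  have m2 : j + 2 ∈ v.T := by rw [hT]; simp
  have m3 : j + 3 ∈ v.T := by rw [hT]; simp
  have m4 : j + 4 ∈ v.T := by rw [hT]; simp
  have m5 : j + 5 ∈ v.T := by rw [hT]; simp
  have hev : ev (nf H j K κ ε) v.x = ε := by
    rw [ev_nf, hv.tight _ m5, hv.tight _ m4, hv.tight _ m3, hv.tight _ m2, hv.tight _ m0]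
    ring
  have hD0 : D (nf H j K κ ε) (v.u 0) = -(ε * κ) := by
    rw [D_nf, hv.dual _ m5 _ m0, hv.dual _ m4 _ m0, hv.dual _ m3 _ m0, hv.dual _ m2 _ m0,
      hv.dual _ m0 _ m0, if_neg (by omega), if_neg (by omega), if_neg (by omega),
      if_neg (by omega), if_pos rfl]
    ring
  change c ⬝ᵥ (piv (nf H j K κ ε) (j + 6) v 0).x = _
  rw [dot_piv, hev, hD0]
  field_simp

/-- link condition on `κ` -/
def KapPair (c : Fin 5 → ℝ) (κ : ℝ) (p q : Vx 5 × Mk) : Prop :=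
  p.2 = .g0 → c ⬝ᵥ p.1.x + κ⁻¹ * (c ⬝ᵥ p.1.u 0) < c ⬝ᵥ q.1.x

lemma pair_eventually {p q : Vx 5 × Mk} (hvp : IsV H (j + 5) p.1) (hmp : MkOK c j p.1 p.2)
    (hvq : IsV H (j + 5) q.1) (hmq : MkOK c j q.1 q.2) (hlt : c ⬝ᵥ p.1.x < c ⬝ᵥ q.1.x)
    (hκ : 0 < κ) (hK : 0 < K) (hk : KapPair c κ p q) :
    ∀ᶠ ε in 𝓝[>] (0 : ℝ), c ⬝ᵥ (lst' (nf H j K κ ε) j p).1.x <
      c ⬝ᵥ (fst' (nf H j K κ ε) j q).1.x := by
  by_cases hp : p.2 = .g0
  · have h1 := (fst_tendsto (κ := κ) hvq hmq hK).eventually (lt_mem_nhds (hk hp))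
    filter_upwards [h1, self_mem_nhdsWithin] with ε e1 e2
    obtain ⟨v, m⟩ := p
    change m = .g0 at hp
    subst hp
    rw [lst_g0 hvp hmp hκ e2]
    exact e1
  · exact (lst_tendsto (κ := κ) hvp hmp hK hp).eventually_lt (fst_tendsto (κ := κ) hvq hmq hK) hlt

lemma tend_inv : Tendsto (fun κ : ℝ => κ⁻¹) atTop (𝓝 0) := tendsto_inv_atTop_zero

lemma tend_inv2 : Tendsto (fun κ : ℝ => (κ ^ 2)⁻¹) atTop (𝓝 0) := by
  have := tend_inv.pow 2
  simpa [inv_pow] using this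

/-- points near a vertex are strictly inside the other facets -/
lemma near_eventually (hv : IsV H (j + 5) v) (u : Fin 5 → ℝ) (t : ℝ → ℝ)
    (ht : Tendsto t atTop (𝓝 0)) :
    ∀ᶠ κ in atTop, ∀ F, F ≤ j + 5 → F ∉ v.T → 0 < ev (H F) (v.x + t κ • u) := by
  have h2 : ∀ᶠ κ in atTop, ∀ F ∈ Finset.range (j + 6), F ∉ v.T →
      0 < ev (H F) (v.x + t κ • u) := by
    rw [Finset.eventually_all]
    intro F hF
    by_cases hT : F ∈ v.T
    · exact Eventually.of_forall (fun ε h0 => absurd hT h0)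
    · have h3 : 0 < ev (H F) v.x := hv.pos F (by simpa [Nat.lt_succ_iff] using hF) hT
      have h4 : Tendsto (fun κ : ℝ => ev (H F) v.x + t κ * D (H F) u) atTop
          (𝓝 (ev (H F) v.x)) := by
        have := (ht.mul_const (D (H F) u)).const_add (ev (H F) v.x)
        simpa using this
      filter_upwards [h4.eventually (lt_mem_nhds h3)] with κ hκ _
      rw [ev_add_smul]
      exact hκ
  filter_upwards [h2] with κ e1 F hF hT
  exact e1 F (Finset.mem_range.2 (by omega)) hT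

/-- `1 - κ² x - κ y` is eventually negative -/
lemma gv_eventually {x y : ℝ} (hx : 0 ≤ x) (hy : 0 ≤ y) (hxy : 0 < x ∨ 0 < y) :
    ∀ᶠ κ in atTop, 1 - κ ^ 2 * x - κ * y < 0 := by
  rcases hxy with h | h
  · have h1 : Tendsto (fun κ : ℝ => κ ^ 2 * x) atTop atTop :=
      (tendsto_pow_atTop (by norm_num)).atTop_mul_const h
    filter_upwards [h1.eventually_gt_atTop 1, eventually_ge_atTop 0] with κ e1 e2
    have := mul_nonneg e2 hy
    linarith
  · have h1 : Tendsto (fun κ : ℝ => κ * y) atTop atTop := tendsto_id.atTop_mul_const h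
    filter_upwards [h1.eventually_gt_atTop 1] with κ e1
    have := mul_nonneg (sq_nonneg κ) hx
    linarith

lemma kap_eventually {p : Vx 5 × Mk} (hv : IsV H (j + 5) p.1) (hm : MkOK c j p.1 p.2) :
    ∀ᶠ κ in atTop, KapOK H c j κ p := by
  obtain ⟨v, m⟩ := p
  have nn : ∀ F, F ≤ j + 5 → 0 ≤ ev (H F) v.x := by
    intro F hF
    by_cases hT : F ∈ v.T
    · exact (hv.tight F hT).ge
    · exact (hv.pos F hF hT).le
  have hact : Act j v.T → ∀ᶠ κ in atTop, gv H j κ v < 0 := fun ha =>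
    gv_eventually (nn _ (by omega)) (nn _ (by omega)) (Or.inl (hv.pos _ (by omega) ha.2.2.2))
  cases m with
  | off => exact Eventually.of_forall (fun _ => trivial)
  | g0 =>
    obtain ⟨hT, hs0, hs2⟩ := hm
    have h1 := near_eventually hv (v.u 0) (fun κ => κ⁻¹) tend_inv
    have h2 := near_eventually hv (v.u (j + 2)) (fun κ => (κ ^ 2)⁻¹) tend_inv2
    have h3 : Tendsto (fun κ : ℝ => κ⁻¹ * (c ⬝ᵥ v.u (j + 2))) atTop (𝓝 0) := by
      have := tend_inv.mul_const (c ⬝ᵥ v.u (j + 2))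
      simpa using this
    filter_upwards [h1, h2, h3.eventually (gt_mem_nhds hs0), eventually_gt_atTop 0] with
      κ e1 e2 e3 e4
    refine ⟨e1, e2, ?_⟩
    have h5 : (κ ^ 2)⁻¹ * (c ⬝ᵥ v.u (j + 2)) = κ⁻¹ * (κ⁻¹ * (c ⬝ᵥ v.u (j + 2))) := by
      field_simp
    rw [h5]
    exact mul_lt_mul_of_pos_left e3 (inv_pos.2 e4)
  | g1 =>
    obtain ⟨hT, hs4, hs3⟩ := hm
    change v.T = _ at hT
    exact gv_eventually (nn _ (by omega)) (nn _ (by omega))
      (Or.inr (hv.pos _ (by omega) (by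
        rw [hT]
        simp only [Finset.mem_insert, Finset.mem_singleton]
        omega)))
  | I1 => exact hact hm.1
  | I2 => exact hact hm.1
  | I3 => exact hact hm.1
  | I4 => exact hact hm.1

lemma kappair_eventually {p q : Vx 5 × Mk} (hlt : c ⬝ᵥ p.1.x < c ⬝ᵥ q.1.x) :
    ∀ᶠ κ in atTop, KapPair c κ p q := by
  have h3 : Tendsto (fun κ : ℝ => c ⬝ᵥ p.1.x + κ⁻¹ * (c ⬝ᵥ p.1.u 0)) atTop
      (𝓝 (c ⬝ᵥ p.1.x)) := by
    have := (tend_inv.mul_const (c ⬝ᵥ p.1.u 0)).const_add (c ⬝ᵥ p.1.x)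
    simpa using this
  filter_upwards [h3.eventually (gt_mem_nhds hlt)] with κ e1 _
  exact e1

/-- `a / K² < b / K` eventually when `0 < b` -/
lemma quad_lt (a : ℝ) {b : ℝ} (hb : 0 < b) : ∀ᶠ K in atTop, a / K ^ 2 < b / K := by
  have h1 : Tendsto (fun K : ℝ => K * b) atTop atTop := tendsto_id.atTop_mul_const hb
  filter_upwards [h1.eventually_gt_atTop a, eventually_gt_atTop 0] with K e1 e2
  rw [div_lt_div_iff₀ (by positivity) e2]
  nlinarith

/-- `b / K < a / K²` eventually when `b < 0` -/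
lemma lt_quad (a : ℝ) {b : ℝ} (hb : b < 0) : ∀ᶠ K in atTop, b / K < a / K ^ 2 := by
  have h1 : Tendsto (fun K : ℝ => K * (-b)) atTop atTop :=
    tendsto_id.atTop_mul_const (by linarith)
  filter_upwards [h1.eventually_gt_atTop (-a), eventually_gt_atTop 0] with K e1 e2
  rw [div_lt_div_iff₀ e2 (by positivity)]
  nlinarith

lemma tend_div (a : ℝ) : Tendsto (fun K : ℝ => a / K) atTop (𝓝 0) := by
  have := tend_inv.const_mul a
  simpa [div_eq_mul_inv] using this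

lemma tend_div2 (a : ℝ) : Tendsto (fun K : ℝ => a / K ^ 2) atTop (𝓝 0) := by
  have := tend_inv2.const_mul a
  simpa [div_eq_mul_inv] using this

lemma kok_eventually {p : Vx 5 × Mk} (hm : MkOK c j p.1 p.2) :
    ∀ᶠ K in atTop, KOK c j K p := by
  obtain ⟨v, m⟩ := p
  cases m with
  | off => exact Eventually.of_forall (fun _ => trivial)
  | g0 => exact Eventually.of_forall (fun _ => trivial)
  | g1 =>
    obtain ⟨hT, hs4, hs3⟩ := hm
    filter_upwards [quad_lt (c ⬝ᵥ v.u (j + 5)) hs3,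
      (tend_div (c ⬝ᵥ v.u (j + 3))).eventually (gt_mem_nhds hs4)] with K e1 e2
    exact ⟨e1, e2⟩
  | I1 =>
    obtain ⟨hT, hs4, hs3⟩ := hm
    filter_upwards [quad_lt (c ⬝ᵥ v.u (j + 5)) hs3,
      (tend_div2 (c ⬝ᵥ v.u (j + 5))).eventually (lt_mem_nhds hs4)] with K e1 e2
    exact ⟨e2, e1⟩
  | I2 =>
    obtain ⟨hT, hs4, hs3⟩ := hm
    filter_upwards [lt_quad (c ⬝ᵥ v.u (j + 5)) hs3,
      (tend_div (c ⬝ᵥ v.u (j + 3))).eventually (lt_mem_nhds hs4)] with K e1 e2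
    exact ⟨e2, e1⟩
  | I3 =>
    obtain ⟨hT, hs4, hs3⟩ := hm
    filter_upwards [lt_quad (c ⬝ᵥ v.u (j + 5)) hs3,
      (tend_div2 (c ⬝ᵥ v.u (j + 5))).eventually (gt_mem_nhds hs4)] with K e1 e2
    exact ⟨e1, e2⟩
  | I4 =>
    obtain ⟨hT, hs4, hs3⟩ := hm
    filter_upwards [quad_lt (c ⬝ᵥ v.u (j + 5)) hs3,
      (tend_div (c ⬝ᵥ v.u (j + 3))).eventually (gt_mem_nhds hs4)] with K e1 e2
    exact ⟨e1, e2⟩

/-- the inductive step -/
theorem Inv.next {L : List (Vx 5 × Mk)} (hI : Inv H c j L) :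
    ∃ h : Form 5, Inv (upd H (j + 5) h) c (j + 1) (L.flatMap (ex h j)) := by
  -- the choice of `κ`
  have k1 : ∀ᶠ κ in atTop, ∀ p ∈ L, KapOK H c j κ p :=
    forall_eventually L (fun p hp => kap_eventually (hI.vert p hp).1 (hI.vert p hp).2)
  have k2 : ∀ᶠ κ in atTop, L.IsChain (KapPair c κ) :=
    isChain_eventually L (hI.chain.imp (fun _ _ h => kappair_eventually h.1))
  obtain ⟨κ, hk1, hk2, hκ⟩ := (k1.and (k2.and (eventually_gt_atTop 0))).exists
  -- the choice of `K`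
  have k3 : ∀ᶠ K in atTop, ∀ p ∈ L, KOK c j K p :=
    forall_eventually L (fun p hp => kok_eventually (hI.vert p hp).2)
  obtain ⟨K, hk3, hK⟩ := (k3.and (eventually_gt_atTop 0)).exists
  -- the choice of `ε`
  have k4 : ∀ᶠ ε in 𝓝[>] (0 : ℝ), ∀ p ∈ L, EOK H c (nf H j K κ ε) j p :=
    forall_eventually L (fun p hp => eok_eventually (hI.vert p hp).1 (hI.vert p hp).2 hκ hK
      (hk1 p hp) (hk3 p hp))
  have k5 : ∀ᶠ ε in 𝓝[>] (0 : ℝ), L.IsChain (fun p q =>
      c ⬝ᵥ (lst' (nf H j K κ ε) j p).1.x < c ⬝ᵥ (fst' (nf H j K κ ε) j q).1.x) := by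
    apply isChain_eventually L
    have h1 : L.IsChain (fun p q => Rel c j p q ∧ KapPair c κ p q) := by
      rw [List.isChain_iff_getElem]
      intro i hi
      exact ⟨List.isChain_iff_getElem.1 hI.chain i hi, List.isChain_iff_getElem.1 hk2 i hi⟩
    exact isChain_imp_mem (fun p hp q hq h => pair_eventually (hI.vert p hp).1
      (hI.vert p hp).2 (hI.vert q hq).1 (hI.vert q hq).2 h.1.1 hκ hK h.2) h1
  obtain ⟨ε, hk4, hk5⟩ := (k4.and k5).exists
  exact ⟨nf H j K κ ε, hI.step hk4 hk5⟩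

end Pool.Agent.H81.MP5
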